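import Pool.Agent.Helper36.ST.G
import Pool.Agent.Helper36.NC.C

/-!
# The sum over the squares of a coset of `N`
-/

set_option autoImplicit false
open scoped BigOperators MonoidAlgebra
open Classical

namespace Pool.Agent.Helper36.ST

open Pool.Agent.Helper36.NB Pool.Agent.Helper44.S3 Pool.Agent.Helper36.NC
open Pool.Agent.Helper32.NO

/-- The Casimir element. -/
theorem casimir {R : Type} [CommRing R] {H : Type} [Group H] [Fintype H]
    (B : MonoidAlgebra R H →ₗ[R] MonoidAlgebra R H →ₗ[R] R) (p u : MonoidAlgebra R H) :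
    ∑ h : H, B (p * el R h) (el R h⁻¹ * u) = ∑ h : H, B (p * u * el R h) (el R h⁻¹) := by
  induction u using MonoidAlgebra.induction_linear with
  | zero => simp
  | add x y hx hy =>
    simp only [mul_add, add_mul, map_add, LinearMap.add_apply, Finset.sum_add_distrib, hx, hy]
  | single g r =>
    have h1 : (MonoidAlgebra.single g r : MonoidAlgebra R H) = r • el R g := by
      rw [el, MonoidAlgebra.smul_single, smul_eq_mul, mul_one]
    rw [h1]
    simp only [mul_smul_comm, smul_mul_assoc, map_smul, LinearMap.smul_apply]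
    rw [← Finset.smul_sum, ← Finset.smul_sum]
    congr 1
    refine (Fintype.sum_equiv (Equiv.mulLeft g) _ _ fun h => ?_).symm
    rw [Equiv.coe_mulLeft, mul_inv_rev, el_mul, el_mul, mul_assoc (el R h⁻¹), el_inv_mul_el,
      mul_one, mul_assoc]

section sum

variable {R : Type} [CommRing R] {K : Type} [Group K] [Fintype K] {H N : Subgroup K}
  (hH : H.Normal) (hHN : H ≤ N) (F f : MonoidAlgebra R K) (z : K) (m : R)
  (hFs : ∀ g, g ∉ H → F.coeff g = 0)
  (hfN : ∀ n ∈ N, el R n * f = f * el R n) (hFH : ∀ n ∈ H, el R n * F = F * el R n)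
  (hm : ∀ h ∈ H, m * f.coeff h = F.coeff h)
  (hz : cj z f = inv' f) (hzF : cj z F = inv' F) (hzz : z * z ∈ H)

/-- The bilinear form. -/
noncomputable def BF : MonoidAlgebra R H →ₗ[R] MonoidAlgebra R H →ₗ[R] R :=
  LinearMap.mk₂ R (fun p q => (el R z⁻¹ * inv' (incl R H p) * el R z⁻¹ * incl R H q * F).coeff 1)
    (fun p p' q => by
      rw [map_add, inv'_add, mul_add, add_mul, add_mul, add_mul, MonoidAlgebra.coeff_add,
        Finsupp.add_apply])
    (fun c p q => by
      rw [incl_smul', inv'_smul, mul_smul_comm, smul_mul_assoc, smul_mul_assoc, smul_mul_assoc,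
        MonoidAlgebra.coeff_smul, Finsupp.smul_apply])
    (fun p q q' => by
      rw [map_add, mul_add, add_mul, MonoidAlgebra.coeff_add, Finsupp.add_apply])
    (fun c p q => by
      rw [incl_smul', mul_smul_comm, smul_mul_assoc, MonoidAlgebra.coeff_smul,
        Finsupp.smul_apply])

omit [Fintype K] in
theorem BF_apply (p q : MonoidAlgebra R H) : BF F z p q =
    (el R z⁻¹ * inv' (incl R H p) * el R z⁻¹ * incl R H q * F).coeff 1 := rfl

omit [Fintype K] in
theorem comm_incl {y : MonoidAlgebra R K} (hy : ∀ n ∈ H, el R n * y = y * el R n)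
    (a : MonoidAlgebra R H) : incl R H a * y = y * incl R H a := by
  induction a using MonoidAlgebra.induction_linear with
  | zero => rw [map_zero, zero_mul, mul_zero]
  | add a c ha hc => rw [map_add, add_mul, mul_add, ha, hc]
  | single h r =>
    rw [single_eq, incl_smul', incl_el, smul_mul_assoc, mul_smul_comm, hy h h.2]

omit [Fintype K] in
theorem el_inv_mul_of_cj {y : MonoidAlgebra R K} (hy : cj z y = inv' y) :
    el R z⁻¹ * y = inv' y * el R z⁻¹ ∧ el R z⁻¹ * inv' y = y * el R z⁻¹ := by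
  have h1 : cj z (inv' y) = y := by rw [← cj_inv', hy, inv'_inv']
  have key : ∀ u v : MonoidAlgebra R K, cj z u = v → el R z⁻¹ * v = u * el R z⁻¹ := by
    intro u v h
    rw [← h]
    unfold cj
    rw [← mul_assoc, ← mul_assoc, el_inv_mul_el, one_mul]
  exact ⟨key _ _ h1, key _ _ hy⟩

omit [Fintype K] in
theorem inv_comm {y : MonoidAlgebra R K} {L : Subgroup K}
    (hy : ∀ n ∈ L, el R n * y = y * el R n) : ∀ n ∈ L, el R n * inv' y = inv' y * el R n := by
  intro n hn
  have h1 := congrArg inv' (hy n⁻¹ (L.inv_mem hn))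
  rw [inv'_mul, inv'_mul, inv'_el, inv_inv] at h1
  exact h1.symm

include hH hHN hfN hm hz hzz

theorem one_sq (n : K) (hn : n ∈ N) (p q : MonoidAlgebra R H)
    (hp : el R n * f = incl R H p * f) (hq : el R n⁻¹ * f = incl R H q * f) :
    m * f.coeff (n * z * (n * z)) = BF F z p q := by
  have hfH : ∀ n ∈ H, el R n * f = f * el R n := fun n hn => hfN n (hHN hn)
  obtain ⟨z1, z2⟩ := el_inv_mul_of_cj z hz
  have hfi := inv_comm hfN
  -- `n⁻¹ f°`
  have h1 : el R n⁻¹ * inv' f = inv' (incl R H p) * inv' f := by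
    have h3 := congrArg inv' hp
    rw [inv'_mul, inv'_mul, inv'_el] at h3
    have h4 : inv' f * inv' (incl R H p) = inv' (incl R H p) * inv' f := by
      rw [← inv'_mul, ← inv'_mul, comm_incl hfH]
    rw [hfi n⁻¹ (N.inv_mem hn), h3, h4]
  have h2 : el R (n * z * (n * z))⁻¹ * f =
      el R z⁻¹ * inv' (incl R H p) * el R z⁻¹ * incl R H q * f := by
    have e1 : (n * z * (n * z))⁻¹ = z⁻¹ * n⁻¹ * z⁻¹ * n⁻¹ := by group
    rw [e1, el_mul, el_mul, el_mul]
    calc el R z⁻¹ * el R n⁻¹ * el R z⁻¹ * el R n⁻¹ * f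
        = el R z⁻¹ * el R n⁻¹ * el R z⁻¹ * (el R n⁻¹ * f) := by simp only [mul_assoc]
      _ = el R z⁻¹ * el R n⁻¹ * el R z⁻¹ * (f * incl R H q) := by rw [hq, comm_incl hfH]
      _ = el R z⁻¹ * el R n⁻¹ * (el R z⁻¹ * f) * incl R H q := by simp only [mul_assoc]
      _ = el R z⁻¹ * (el R n⁻¹ * inv' f) * el R z⁻¹ * incl R H q := by
          rw [z1]; simp only [mul_assoc]
      _ = el R z⁻¹ * inv' (incl R H p) * (inv' f * el R z⁻¹) * incl R H q := by
          rw [h1]; simp only [mul_assoc]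
      _ = el R z⁻¹ * inv' (incl R H p) * (el R z⁻¹ * f) * incl R H q := by rw [← z1]
      _ = el R z⁻¹ * inv' (incl R H p) * el R z⁻¹ * (f * incl R H q) := by
          simp only [mul_assoc]
      _ = _ := by rw [← comm_incl hfH]; simp only [mul_assoc]
  have h3 : f.coeff (n * z * (n * z)) = (el R (n * z * (n * z))⁻¹ * f).coeff 1 := by
    rw [el_mul_coeff, inv_inv, mul_one]
  rw [h3, h2, BF_apply, coeff_mul_all, coeff_mul_all, Finset.mul_sum]
  refine Finset.sum_congr rfl fun x _ => ?_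
  rw [mul_one]
  by_cases hx : x ∈ H
  · rw [← hm _ (H.inv_mem hx)]
    ring
  · have h5 : (el R z⁻¹ * inv' (incl R H p) * el R z⁻¹ * incl R H q).coeff x = 0 := by
      apply supp_mul H _ (fun g hg => incl_supp H _ hg) x hx
      intro g hg
      rw [mul_el_coeff, el_mul_coeff, inv'_coeff]
      apply incl_supp H
      intro hcon
      apply hg
      have h6 : z⁻¹ * ((z⁻¹⁻¹ * (g * z⁻¹⁻¹))⁻¹)⁻¹ * z⁻¹⁻¹ * (z * z)⁻¹ = g := by group
      rw [← h6]
      exact H.mul_mem (hH.conj_mem _ (H.inv_mem hcon) z⁻¹) (H.inv_mem hzz)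
    rw [h5, zero_mul, zero_mul, mul_zero]

include hFs hFH hzF

theorem coset_sq (n : K) (hn : n ∈ N) (hx : ∀ n ∈ N, ∃ a, el R n * f = incl R H a * f) :
    ∑ h : H, m * f.coeff (n * h * z * (n * h * z)) = ∑ h : H, F.coeff (h * z * (h * z)) := by
  have hfH : ∀ n ∈ H, el R n * f = f * el R n := fun n hn => hfN n (hHN hn)
  obtain ⟨p, hp⟩ := hx n hn
  obtain ⟨q, hq⟩ := hx n⁻¹ (N.inv_mem hn)
  obtain ⟨w1, w2⟩ := el_inv_mul_of_cj z hzF
  have h1 : ∀ h : H, m * f.coeff (n * h * z * (n * h * z)) =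
      BF F z (p * el R h) (el R h⁻¹ * q) := by
    intro h
    refine one_sq hH hHN F f z m hfN hm hz hzz (n * h) (N.mul_mem hn (hHN h.2)) _ _ ?_ ?_
    · rw [el_mul, map_mul, incl_el, mul_assoc, mul_assoc, hfH h h.2, ← mul_assoc, hp, mul_assoc]
    · rw [mul_inv_rev, el_mul, map_mul, incl_el, mul_assoc, mul_assoc, hq]
      rfl
  rw [Finset.sum_congr rfl fun h _ => h1 h, casimir]
  -- `p q F = F`
  have hpq : incl R H (p * q) * f = f := by
    rw [map_mul, mul_assoc, ← hq, hfN n⁻¹ (N.inv_mem hn), ← mul_assoc, ← hp,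
      hfN n hn, mul_assoc, ← el_mul, mul_inv_cancel, el_one, mul_one]
  have hpqF : incl R H (p * q) * F = F := by
    ext g
    by_cases hg : g ∈ H
    · have h3 := congrArg (fun y => m * y.coeff g) hpq
      simp only [coeff_mul_all, Finset.mul_sum] at h3
      rw [coeff_mul_all, ← hm g hg, ← h3]
      refine Finset.sum_congr rfl fun x _ => ?_
      by_cases hxH : x ∈ H
      · rw [← hm _ (H.mul_mem (H.inv_mem hxH) hg)]
        ring
      · rw [incl_supp H _ hxH, zero_mul, zero_mul, mul_zero]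
    · rw [hFs g hg]
      exact supp_mul H (fun g hg => incl_supp H _ hg) hFs g hg
  refine Finset.sum_congr rfl fun h _ => ?_
  rw [BF_apply]
  have h4 : el R z⁻¹ * inv' (incl R H (p * q * el R h)) * el R z⁻¹ * incl R H (el R h⁻¹) * F =
      el R ((h : K) * z * (h * z))⁻¹ * F := by
    have e1 : ((h : K) * z * (h * z))⁻¹ = z⁻¹ * (h : K)⁻¹ * z⁻¹ * (h : K)⁻¹ := by group
    have e2 : incl R H (el R h⁻¹) = el R (h : K)⁻¹ := incl_el R H h⁻¹
    have e3 : el R (h : K)⁻¹ * F = F * el R (h : K)⁻¹ := hFH _ (H.inv_mem h.2)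
    have e4 : inv' (incl R H (p * q * el R h)) * inv' F = el R (h : K)⁻¹ * inv' F := by
      rw [← inv'_mul, map_mul, ← mul_assoc, ← comm_incl hFH (p * q), hpqF, incl_el, inv'_mul,
        inv'_el]
    rw [e1, e2, el_mul, el_mul, el_mul]
    calc el R z⁻¹ * inv' (incl R H (p * q * el R h)) * el R z⁻¹ * el R (h : K)⁻¹ * F
        = el R z⁻¹ * inv' (incl R H (p * q * el R h)) * el R z⁻¹ * (el R (h : K)⁻¹ * F) := by
          simp only [mul_assoc]
      _ = el R z⁻¹ * inv' (incl R H (p * q * el R h)) * (el R z⁻¹ * F) * el R (h : K)⁻¹ := by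
          rw [e3]; simp only [mul_assoc]
      _ = el R z⁻¹ * (inv' (incl R H (p * q * el R h)) * inv' F) * el R z⁻¹ * el R (h : K)⁻¹ := by
          rw [w1]; simp only [mul_assoc]
      _ = el R z⁻¹ * el R (h : K)⁻¹ * (inv' F * el R z⁻¹) * el R (h : K)⁻¹ := by
          rw [e4]; simp only [mul_assoc]
      _ = el R z⁻¹ * el R (h : K)⁻¹ * el R z⁻¹ * (F * el R (h : K)⁻¹) := by
          rw [← w1]; simp only [mul_assoc]
      _ = _ := by rw [← e3]; simp only [mul_assoc]
  rw [h4, el_mul_coeff, inv_inv, mul_one]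

theorem total_sq (hx : ∀ n ∈ N, ∃ a, el R n * f = incl R H a * f) :
    (Nat.card H : R) * (m * ∑ n : N, f.coeff (n * z * (n * z))) =
      (Nat.card N : R) * ∑ h : H, F.coeff (h * z * (h * z)) := by
  have h1 := fun n : N => coset_sq hH hHN F f z m hFs hfN hFH hm hz hzF hzz n n.2 hx
  have h3 : ∑ n : N, ∑ h : H, m * f.coeff ((n : K) * h * z * (n * h * z)) =
      (Nat.card N : R) * ∑ h : H, F.coeff (h * z * (h * z)) := by
    rw [Finset.sum_congr rfl fun n _ => h1 n, Finset.sum_const, Finset.card_univ, nsmul_eq_mul,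
      Nat.card_eq_fintype_card]
  rw [← h3, Finset.sum_comm]
  have h4 : ∀ h : H, ∑ n : N, m * f.coeff ((n : K) * h * z * (n * h * z)) =
      m * ∑ n : N, f.coeff (n * z * (n * z)) := by
    intro h
    rw [Finset.mul_sum]
    refine Fintype.sum_equiv (Equiv.mulRight (⟨h, hHN h.2⟩ : N)) _ _ fun n => ?_
    rfl
  rw [Finset.sum_congr rfl fun h _ => h4 h, Finset.sum_const, Finset.card_univ, nsmul_eq_mul,
    Nat.card_eq_fintype_card]

end sum

end Pool.Agent.Helper36.ST
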