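import Pool.Agent.Helper36.ST.Fix
import Pool.Agent.Helper36.ST.Sum

/-!
# The data of the blocks `f` with `O[N] f = O[H] f`
-/

set_option autoImplicit false
open scoped BigOperators MonoidAlgebra
open Classical

namespace Pool.Agent.Helper36.ST

open Pool.Agent.Helper36.NB Pool.Agent.Helper44.S3 Pool.Agent.Helper36.NC

theorem pow_mem_of {G : Type} [Group G] {H N : Subgroup G} (hH : H.Normal) {y : G} (hy : y ∈ N) :
    y ^ H.relIndex N ∈ H := by
  have hn : (H.subgroupOf N).Normal := hH.subgroupOf N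
  have h1 := (H.subgroupOf N).pow_index_mem (⟨y, hy⟩ : N)
  exact Subgroup.mem_subgroupOf.1 h1

theorem dat_c (O : ValuationSubring ℂ) (h2 : (2 : O) ∈ IsLocalRing.maximalIdeal O)
    {G : Type} [Group G] [Fintype G] {H N : Subgroup G} (hH : H.Normal) (hN : N.Normal)
    (hHN : H ≤ N) (hodd : Odd (H.relIndex N)) (F f : MonoidAlgebra O G)
    (hFs : ∀ g, g ∉ H → F.coeff g = 0) (hfs : ∀ g, g ∉ N → f.coeff g = 0)
    (hfN : ∀ n ∈ N, el O n * f = f * el O n) (hFN : ∀ n ∈ N, el O n * F = F * el O n)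
    (hFF : F * inv' F = 0) (hfF : f * F = f) (hf0 : f ≠ 0)
    (hm : ∀ h ∈ H, (H.relIndex N : O) * f.coeff h = F.coeff h)
    (hx : ∀ n ∈ N, ∃ a : MonoidAlgebra O H, el O n * f = incl O H a * f)
    (horth : ∀ g, cj g F = inv' F ∨ cj g F * inv' F = 0)
    {n : ℕ} (hdat : HDat O H F n) : HDat O N f n := by
  have hchar : CharP (resK O) 2 := resK_charP O h2
  have hFH : ∀ n ∈ H, el O n * F = F * el O n := fun n hn => hFN n (hHN hn)
  have hFsN : ∀ g, g ∉ N → F.coeff g = 0 := fun g hg => hFs g (fun h => hg (hHN h))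
  have hcF : ∀ {y : MonoidAlgebra O G}, (∀ g, g ∉ N → y.coeff g = 0) → y * F = F * y := by
    intro y hy
    rw [← Pool.Agent.Helper44.S3.incl_res N hy]
    exact comm_incl hFN _
  have hcf : ∀ {y : MonoidAlgebra O G}, (∀ g, g ∉ N → y.coeff g = 0) → y * f = f * y := by
    intro y hy
    rw [← Pool.Agent.Helper44.S3.incl_res N hy]
    exact comm_incl hfN _
  have hFis : ∀ g, g ∉ N → (inv' F).coeff g = 0 := fun g hg => by
    rw [inv'_coeff]
    exact hFsN _ (fun h => hg (by simpa using N.inv_mem h))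
  have hfis : ∀ g, g ∉ N → (inv' f).coeff g = 0 := fun g hg => by
    rw [inv'_coeff]
    exact hfs _ (fun h => hg (by simpa using N.inv_mem h))
  have hFf : F * f = f := by rw [hcf hFsN, hfF]
  have hF'F : inv' F * F = 0 := by rw [hcF hFis, hFF]
  have hff' : inv' F * inv' f = inv' f := by rw [← inv'_mul, hfF]
  have hff'' : inv' f * inv' F = inv' f := by rw [← inv'_mul, hFf]
  have hcjN : ∀ n ∈ N, cj n f = f := fun n hn => (cj_eq_iff n f).2 (hfN n hn)
  have hcjNF : ∀ n ∈ N, cj n F = F := fun n hn => (cj_eq_iff n F).2 (hFN n hn)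
  -- the product
  have hprod : (F + inv' F) * (f + inv' f) = f + inv' f := by
    have h3 : F * inv' f = 0 := by rw [← hff', ← mul_assoc, hFF, zero_mul]
    have h4 : inv' F * f = 0 := by rw [← hFf, ← mul_assoc, hF'F, zero_mul]
    rw [add_mul, mul_add, mul_add, hFf, h3, h4, hff', add_zero, zero_add]
  -- lemma A
  have lA : ∀ t, cj t f = inv' f → cj t F = inv' F := by
    intro t ht
    rcases horth t with h | h
    · exact h
    · exfalso
      apply hf0
      have h3 : inv' f * cj t F = inv' f := by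
        rw [← ht, ← cj_mul, hfF]
      have h4 : inv' f = 0 := by
        calc inv' f = (inv' f * cj t F) * inv' F := by rw [h3, hff'']
          _ = inv' f * (cj t F * inv' F) := mul_assoc _ _ _
          _ = 0 := by rw [h, mul_zero]
      rw [← inv'_inv' f, h4, inv'_zero]
  set m := H.relIndex N with hmdef
  have hmpos : m ≠ 0 := by
    intro h
    rw [h] at hodd
    exact (Nat.not_odd_zero hodd).elim
  have hcard : Nat.card N = m * Nat.card H := by
    have h3 := Subgroup.card_mul_index (H.subgroupOf N)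
    rw [Nat.card_congr (Subgroup.subgroupOfEquivOfLe hHN).toEquiv] at h3
    rw [← h3, mul_comm]
    rfl
  -- `2`-subgroups of `N`
  have h2H : ∀ P : Subgroup G, P ≤ N → IsPGroup 2 P → P ≤ H := by
    intro P hP h2P p hp
    obtain ⟨s, hs⟩ := h2P ⟨p, hp⟩
    have hs' : p ^ 2 ^ s = 1 := congrArg (fun y : P => (y : G)) hs
    have h3 : p ^ m ∈ H := pow_mem_of hH (hP hp)
    have hco : Nat.Coprime m (2 ^ s) := (Nat.coprime_two_right.2 hodd).pow_right s
    have h4 : (p ^ m) ^ (Nat.gcdA m (2 ^ s)) ∈ H := H.zpow_mem h3 _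
    have h5 : ((p ^ m) ^ (Nat.gcdA m (2 ^ s)) : G) = p := by
      have h6 := Nat.gcd_eq_gcd_ab m (2 ^ s)
      rw [hco.gcd_eq_one] at h6
      have h7 : p ^ ((m : ℤ) * Nat.gcdA m (2 ^ s) + ((2 ^ s : ℕ) : ℤ) * Nat.gcdB m (2 ^ s)) = p := by
        rw [← h6]
        simp
      rw [zpow_add, zpow_mul, zpow_mul, zpow_natCast, zpow_natCast, hs', one_zpow, mul_one] at h7
      exact h7
    rwa [h5] at h4
  have kc : ∀ (y : MonoidAlgebra O G) (t : G), el O t * y = y * el O t →
      el (resK O) t * toK O G y = toK O G y * el (resK O) t := by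
    intro y t ht
    rw [← toK_el, ← map_mul, ht, map_mul]
  have hcomN : ∀ t ∈ N, el O t * (f + inv' f) = (f + inv' f) * el O t := by
    intro t ht
    rw [mul_add, add_mul, hfN t ht, inv_comm hfN t ht]
  have hcomNF : ∀ t ∈ N, el O t * (F + inv' F) = (F + inv' F) * el O t := by
    intro t ht
    rw [mul_add, add_mul, hFN t ht, inv_comm hFN t ht]
  have hcomS : ∀ t, cj t f = inv' f → el O t * (f + inv' f) = (f + inv' f) * el O t := by
    intro t ht
    rw [← cj_eq_iff, cj_add, ← cj_inv', ht, inv'_inv', add_comm]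
  have hcomSF : ∀ t, cj t F = inv' F → el O t * (F + inv' F) = (F + inv' F) * el O t := by
    intro t ht
    rw [← cj_eq_iff, cj_add, ← cj_inv', ht, inv'_inv', add_comm]
  have hxN : ∀ x, IsLocalRing.residue O ((f + inv' f).coeff x) ≠ 0 → x ∈ N := by
    intro x hx
    by_contra hcon
    apply hx
    rw [MonoidAlgebra.coeff_add, Finsupp.add_apply, hfs x hcon, hfis x hcon, add_zero, map_zero]
  -- the fixed points
  have fixp : ∀ (P Q : Subgroup G) (x : G), IsLocalRing.residue O ((f + inv' f).coeff x) ≠ 0 →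
      IsPGroup 2 Q → P ≤ Q → (∀ t ∈ Q, ∀ t' ∈ Q, t ∉ P → t' ∉ P → t * t' ∈ P) →
      (∀ t ∈ Q, el O t * (f + inv' f) = (f + inv' f) * el O t) →
      (∀ t ∈ Q, el O t * (F + inv' F) = (F + inv' F) * el O t) → PairIn P Q x →
      ∃ c, IsLocalRing.residue O ((F + inv' F).coeff c) ≠ 0 ∧ PairIn P Q c := by
    intro P Q x hxr h2Q hPQ hidx hc1 hc2 hPin
    obtain ⟨c, hc, hPc⟩ := fix_pt (toK O G (f + inv' f)) (toK O G (F + inv' F))
      (by rw [← toK_inv', inv'_add, inv'_inv', add_comm])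
      (by rw [← toK_inv', inv'_add, inv'_inv', add_comm]) P Q h2Q hPQ hidx
      (fun t ht => kc _ t (hc1 t ht)) (fun t ht => kc _ t (hc2 t ht)) x
      (kc _ x (hcomN x (hxN x hxr))) hPin (by rw [← map_mul, hprod, toK_apply]; exact hxr)
    exact ⟨c, by rwa [toK_apply] at hc, hPc⟩
  rintro ⟨z, hz, hzz⟩
  -- the element of `H`
  obtain ⟨j, hj⟩ := hodd
  have hz0 : cj (z ^ m) f = inv' f := by
    have h3 : z ^ m = z * (z * z) ^ j := by
      rw [hj, pow_succ', pow_mul, pow_two]
    rw [h3, ← cj_cj, hcjN _ (N.pow_mem hzz j), hz]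
  have hzz0 : z ^ m * z ^ m ∈ H := by
    have h3 : z ^ m * z ^ m = (z * z) ^ m := by
      rw [← pow_add, ← two_mul, pow_mul, pow_two]
    rw [h3]
    exact pow_mem_of hH hzz
  obtain ⟨q, hd⟩ := hdat ⟨z ^ m, lA _ hz0, hzz0⟩
  refine ⟨q, ?_⟩
  have hm1 : (m : ℂ) * ((f.coeff 1 : O) : ℂ) = ((F.coeff 1 : O) : ℂ) := by
    have h3 := congrArg (fun y : O => (y : ℂ)) (hm 1 H.one_mem)
    push_cast at h3
    exact h3
  refine { pow := hd.pow, one := ?_, val := ?_, emb := ?_, key := ?_ }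
  · rw [hcard, ← hd.one, ← hm1]
    push_cast
    ring
  · rw [hcard, hd.val, Nat.factorization_mul hmpos Nat.card_pos.ne']
    have h3 : m.factorization 2 = 0 := by
      apply Nat.factorization_eq_zero_of_not_dvd
      omega
    rw [Finsupp.add_apply, h3, zero_add]
  · intro x hxr P hPN h2P hcom
    obtain ⟨c, hc, hPc⟩ := fixp P P x hxr h2P le_rfl (fun t ht t' _ hn _ => absurd ht hn)
      (fun t ht => hcomN t (hPN ht)) (fun t ht => hcomNF t (hPN ht))
      ⟨hcom, fun t ht hn => absurd ht hn⟩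
    exact hd.emb c hc P (h2H P hPN h2P) h2P hPc.1
  · intro z' hz' hzz' x P Q hxr hPN hPQ h2Q hQz hidx hcQ hPin hPq
    have h2P : IsPGroup 2 P := h2Q.to_le hPQ
    have hPH := h2H P hPN h2P
    have hsw : ∀ t ∈ Q, t ∉ P → cj t f = inv' f := by
      intro t ht htP
      have h3 : t = z' * (z'⁻¹ * t) := by group
      rw [h3, ← cj_cj, hcjN _ (hQz t ht htP).1, hz']
    obtain ⟨t0, ht0, ht0P⟩ : ∃ t ∈ Q, t ∉ P := by
      by_contra hcon
      push Not at hcon
      have h3 : Nat.card Q ≤ Nat.card P := Subgroup.card_le_of_le hcon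
      have h4 : 0 < Nat.card P := Nat.card_pos
      omega
    have hc1 : ∀ t ∈ Q, el O t * (f + inv' f) = (f + inv' f) * el O t := by
      intro t ht
      by_cases htP : t ∈ P
      · exact hcomN t (hPN htP)
      · exact hcomS t (hsw t ht htP)
    have hc2 : ∀ t ∈ Q, el O t * (F + inv' F) = (F + inv' F) * el O t := by
      intro t ht
      by_cases htP : t ∈ P
      · exact hcomNF t (hPN htP)
      · exact hcomSF t (lA t (hsw t ht htP))
    obtain ⟨c, hc, hPc⟩ := fixp P Q x hxr h2Q hPQ hidx hc1 hc2 hPin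
    have ht00 : t0 * t0 ∈ P := hidx t0 ht0 t0 ht0 ht0P ht0P
    have hkey := hd.key t0 (lA t0 (hsw t0 ht0 ht0P)) (hPH ht00) c P Q hc hPH hPQ h2Q
      (fun t ht htP => ⟨by
        have h3 : t0⁻¹ * t = (t0 * t0)⁻¹ * (t0 * t) := by group
        rw [h3]
        exact H.mul_mem (H.inv_mem (hPH ht00)) (hPH (hidx t0 ht0 t ht ht0P htP)),
        fun h => (hQz t ht htP).2 (hHN h)⟩) hidx hcQ hPc hPq
    rw [← hkey]
    -- the two sums
    have hxs := total_sq hH hHN F f t0 (m : O) hFs hfN hFH hm (hsw t0 ht0 ht0P)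
      (lA t0 (hsw t0 ht0 ht0P)) (hPH ht00) hx
    have s1 : ∑ g ∈ Finset.univ.filter (fun g : G => z'⁻¹ * g ∈ N), f.coeff (g * g) =
        ∑ n : N, f.coeff (n * t0 * (n * t0)) := by
      symm
      refine Finset.sum_bij (fun (n : N) _ => (n : G) * t0) ?_ ?_ ?_ ?_
      · intro n _
        simp only [Finset.mem_filter, Finset.mem_univ, true_and]
        have h3 : z'⁻¹ * ((n : G) * t0) = (z'⁻¹ * n * z'⁻¹⁻¹) * (z'⁻¹ * t0) := by group
        rw [h3]
        exact N.mul_mem (hN.conj_mem _ n.2 _) (hQz t0 ht0 ht0P).1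
      · intro n _ n' _ h
        exact Subtype.ext (mul_right_cancel h)
      · intro g hg
        simp only [Finset.mem_filter, Finset.mem_univ, true_and] at hg
        refine ⟨⟨g * t0⁻¹, ?_⟩, Finset.mem_univ _, ?_⟩
        · have h3 : g * t0⁻¹ = z' * ((z'⁻¹ * g) * (z'⁻¹ * t0)⁻¹) * z'⁻¹ := by group
          rw [h3]
          exact hN.conj_mem _ (N.mul_mem hg (N.inv_mem (hQz t0 ht0 ht0P).1)) _
        · change g * t0⁻¹ * t0 = g
          group
      · intro n _
        rfl
    have s2 : ∑ g ∈ Finset.univ.filter (fun g : G => t0⁻¹ * g ∈ H), F.coeff (g * g) =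
        ∑ h : H, F.coeff (h * t0 * (h * t0)) := by
      symm
      refine Finset.sum_bij (fun (n : H) _ => (n : G) * t0) ?_ ?_ ?_ ?_
      · intro n _
        simp only [Finset.mem_filter, Finset.mem_univ, true_and]
        have h3 : t0⁻¹ * ((n : G) * t0) = (t0⁻¹ * n * t0⁻¹⁻¹) := by group
        rw [h3]
        exact hH.conj_mem _ n.2 _
      · intro n _ n' _ h
        exact Subtype.ext (mul_right_cancel h)
      · intro g hg
        simp only [Finset.mem_filter, Finset.mem_univ, true_and] at hg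
        refine ⟨⟨g * t0⁻¹, ?_⟩, Finset.mem_univ _, ?_⟩
        · have h3 : g * t0⁻¹ = t0 * (t0⁻¹ * g) * t0⁻¹ := by group
          rw [h3]
          exact hH.conj_mem _ hg _
        · change g * t0⁻¹ * t0 = g
          group
      · intro n _
        rfl
    have s1' : ∑ g ∈ Finset.univ.filter (fun g : G => z'⁻¹ * g ∈ N),
        ((f.coeff (g * g) : O) : ℂ) = ((∑ n : N, f.coeff (n * t0 * (n * t0)) : O) : ℂ) := by
      rw [← s1]
      push_cast
      rfl
    have s2' : ∑ g ∈ Finset.univ.filter (fun g : G => t0⁻¹ * g ∈ H),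
        ((F.coeff (g * g) : O) : ℂ) = ((∑ h : H, F.coeff (h * t0 * (h * t0)) : O) : ℂ) := by
      rw [← s2]
      push_cast
      rfl
    rw [s1', s2']
    have hxC := congrArg (fun y : O => (y : ℂ)) hxs
    rw [hcard] at hxC
    have hHc : (Nat.card H : ℂ) ≠ 0 := Nat.cast_ne_zero.2 Nat.card_pos.ne'
    have hmc : (m : ℂ) ≠ 0 := Nat.cast_ne_zero.2 hmpos
    have e1 : (((Nat.card H : O) * ((m : O) * ∑ n : N, f.coeff (n * t0 * (n * t0))) : O) : ℂ) =
        ((Nat.card H : ℂ) * m) * ((∑ n : N, f.coeff (n * t0 * (n * t0)) : O) : ℂ) := by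
      rw [show (((Nat.card H : O) * ((m : O) * ∑ n : N, f.coeff (n * t0 * (n * t0))) : O) : ℂ) =
        ((Nat.card H : O) : ℂ) * (((m : O) : ℂ) *
          ((∑ n : N, f.coeff (n * t0 * (n * t0)) : O) : ℂ)) from rfl]
      push_cast
      ring
    have e2 : (((m * Nat.card H : ℕ) : O) * ∑ h : H, F.coeff (h * t0 * (h * t0)) : O) =
        ((Nat.card H : O) * (m : O)) * ∑ h : H, F.coeff (h * t0 * (h * t0)) := by
      push_cast
      ring
    rw [e2] at hxC
    have e3 : ((((Nat.card H : O) * (m : O)) * ∑ h : H, F.coeff (h * t0 * (h * t0)) : O) : ℂ) =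
        ((Nat.card H : ℂ) * m) * ((∑ h : H, F.coeff (h * t0 * (h * t0)) : O) : ℂ) := by
      rw [show ((((Nat.card H : O) * (m : O)) * ∑ h : H, F.coeff (h * t0 * (h * t0)) : O) : ℂ) =
        ((((Nat.card H : O) * (m : O)) : O) : ℂ) *
          ((∑ h : H, F.coeff (h * t0 * (h * t0)) : O) : ℂ) from rfl]
      push_cast
      ring
    exact mul_left_cancel₀ (mul_ne_zero hHc hmc) (e1.symm.trans (hxC.trans e3))

end Pool.Agent.Helper36.ST
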