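import Pool.Agent.Helper36.ST.One
import Pool.Agent.Helper36.NC.L
import Pool.Agent.Helper36.NC.M

/-!
# The data of `N` when the block has one simple module
-/

set_option autoImplicit false
open scoped BigOperators MonoidAlgebra
open Classical

namespace Pool.Agent.Helper36.ST

open Pool.Agent.Helper36.NB Pool.Agent.Helper44.S3 Pool.Agent.Helper36.NC

/-- Transfer of solvability to a subgroup containing `T`. -/
theorem solv_tr {G : Type} [Group G] {H T K : Subgroup G} (hH : H.Normal) (hTK : T ≤ K)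
    (hsol : Group.IsSolvable (T ⧸ H.subgroupOf T)) :
    have := hH.subgroupOf K
    Group.IsSolvable ((T.subgroupOf K) ⧸ (H.subgroupOf K).subgroupOf (T.subgroupOf K)) := by
  have hHK := hH.subgroupOf K
  let φ : T →* T.subgroupOf K :=
    { toFun := fun t => ⟨⟨t, hTK t.2⟩, Subgroup.mem_subgroupOf.2 t.2⟩
      map_one' := rfl
      map_mul' := fun _ _ => rfl }
  let ψ : T ⧸ H.subgroupOf T →*
      (T.subgroupOf K) ⧸ (H.subgroupOf K).subgroupOf (T.subgroupOf K) :=
    QuotientGroup.map (H.subgroupOf T) _ φ (fun t ht => by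
      rw [Subgroup.mem_comap, Subgroup.mem_subgroupOf, Subgroup.mem_subgroupOf]
      exact Subgroup.mem_subgroupOf.1 ht)
  have hψ : Function.Surjective ψ := by
    intro y
    induction y using QuotientGroup.induction_on with
    | H y =>
      exact ⟨((⟨(y : K), Subgroup.mem_subgroupOf.1 y.2⟩ : T) : T ⧸ H.subgroupOf T), rfl⟩
  exact Group.isSolvable_of_surjective hψ

/-- The simple quotient of `F + F°` for a normal subgroup of index two. -/
theorem two_simple (O : ValuationSubring ℂ) {K : Type} [Group K] [Fintype K] {H : Subgroup K}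
    (hH : H.index = 2) (b : MonoidAlgebra O H) (hb : IsBlock b) (Sb : SimpleQuot (toK O H b))
    (hFF : incl O H b * inv' (incl O H b) = 0)
    (hc : ∀ g, g ∉ H → cj g (incl O H b) = inv' (incl O H b)) :
    Nonempty (SimpleQuot (toK O K (incl O H b + inv' (incl O H b)))) := by
  have halg : IsAlgClosed (resK O) := resK_isAlgClosed O
  obtain ⟨hb0, hbb, hbc, hbp⟩ := id hb
  have hex : ∃ g, g ∉ H := by
    by_contra hcon
    push Not at hcon
    have h3 : H = ⊤ := by
      rw [eq_top_iff]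
      intro g _
      exact hcon g
    rw [h3, Subgroup.index_top] at hH
    omega
  obtain ⟨he0, he, hec, -⟩ := isBlock_two b hb hFF hc hex
  obtain ⟨z, hz⟩ := hex
  have hHn : H.Normal := Subgroup.normal_of_index_eq_two hH
  have hmm : ∀ g, g ∉ H → z⁻¹ * g ∈ H := by
    intro g hg
    have h3 := (Subgroup.mul_mem_iff_of_index_two hH (a := z⁻¹) (b := g))
    rw [h3]
    constructor
    · intro h
      exact absurd (by simpa using H.inv_mem h) hz
    · intro h
      exact absurd h hg
  have hF'F : inv' (incl O H b) * incl O H b = 0 := by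
    have h1 := cj_mul z (incl O H b) (inv' (incl O H b))
    rw [hFF, ← cj_inv', hc z hz, inv'_inv'] at h1
    rw [← h1]
    unfold cj
    rw [mul_zero, zero_mul]
  have hkz : cj z (incl (resK O) H (toK O H b)) = inv' (incl (resK O) H (toK O H b)) := by
    rw [← toK_incl, ← toK_cj, hc z hz, toK_inv']
  have hone := oneSimple_two (k := resK O) z (fun g => by
      by_cases hg : g ∈ H
      · exact Or.inl hg
      · exact Or.inr (hmm g hg))
    (by
      rw [Subgroup.mul_mem_iff_of_index_two hH]) (fun h hh => by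
      have := hHn.conj_mem _ hh z⁻¹
      rwa [inv_inv] at this)
    (toK O H b) (by rw [← map_mul, hbb]) (fun a => by
      obtain ⟨a', rfl⟩ := toK_surjective O a
      rw [← map_mul, ← map_mul, hbc])
    (by rw [hkz, ← toK_incl, ← toK_inv', ← map_mul, hFF, map_zero])
    (by rw [hkz, ← toK_incl, ← toK_inv', ← map_mul, hF'F, map_zero]) (oneSimple_of Sb)
  rw [hkz, ← toK_incl, ← toK_inv', ← map_add] at hone
  refine simpleQuot_of_oneSimple _ ?_ (by rw [← map_mul, he]) (fun a => ?_) hone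
  · intro h0
    exact he0 (idem_eq_zero O he h0)
  · obtain ⟨a', rfl⟩ := toK_surjective O a
    rw [← map_mul, ← map_mul, hec]

theorem dat_I (O : ValuationSubring ℂ) (h2 : (2 : O) ∈ IsLocalRing.maximalIdeal O)
    {G : Type} [Group G] [Fintype G] {H N : Subgroup G} (hH : H.Normal) (hN : N.Normal)
    (hHN : H ≤ N) (b : MonoidAlgebra O H) (hb : IsBlock b)
    (Sb : SimpleQuot (toK O H b))
    (hsol : Group.IsSolvable (N ⧸ H.subgroupOf N))
    (hFF : incl O H b * inv' (incl O H b) = 0)
    (hdat : HDat O H (incl O H b) Sb.n) (f : MonoidAlgebra O N) (hf : IsBlock f)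
    (hfF : incl O N f = incl O H b) (Sf : SimpleQuot (toK O N f)) :
    HDat O N (incl O H b) Sf.n := by
  have halg : IsAlgClosed (resK O) := resK_isAlgClosed O
  obtain ⟨hb0, hbb, hbc, hbp⟩ := id hb
  obtain ⟨hf0, hff, hfc, hfp⟩ := id hf
  set F := incl O H b with hF
  have hFi : F * F = F := by rw [hF, ← map_mul, hbb]
  have hF0 : F ≠ 0 := by
    intro h
    apply hb0
    exact incl_injective H (by rw [← hF, h, map_zero])
  have hFN : ∀ n ∈ N, cj n F = F := by
    intro n hn
    rw [cj_eq_iff, ← hfF]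
    have h1 := congrArg (incl O N) (hfc (el O ⟨n, hn⟩))
    rw [map_mul, map_mul, incl_el] at h1
    exact h1
  intro hz
  rw [← hfF]
  refine dat_of' O h2 hN f hf Sf (by rw [hfF]; exact hFF) ?_ (by rw [hfF]; exact hz)
  -- the identity in `K`
  intro K hNK hidx hsw
  rw [hfF] at hsw ⊢
  have hHK : H ≤ K := hHN.trans hNK
  have hidx' : (N.subgroupOf K).index = 2 := hidx
  obtain ⟨b1, hb1⟩ : ∃ b1, b1 = trE hHK O b := ⟨_, rfl⟩
  have hbl1 : IsBlock b1 := by rw [hb1]; exact isBlock_trE hHK hb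
  obtain ⟨F1, hF1⟩ : ∃ F1, F1 = incl O (H.subgroupOf K) b1 := ⟨_, rfl⟩
  have hinc : incl O K F1 = F := by
    rw [hF1, hb1]
    exact incl_incl hHK b
  have hinc' : incl O K (inv' F1) = inv' F := by rw [← incl_inv', hinc]
  obtain ⟨f1, hf1⟩ : ∃ f1, f1 = trE hNK O f := ⟨_, rfl⟩
  have hfl1 : IsBlock f1 := by rw [hf1]; exact isBlock_trE hNK hf
  have hfF1 : incl O (N.subgroupOf K) f1 = F1 := by
    apply incl_injective K
    rw [hinc, hf1, incl_incl hNK f, hfF]
  have hres : res K (F + inv' F) = F1 + inv' F1 := by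
    rw [← hinc', ← hinc, ← map_add, res_incl]
  obtain ⟨Sb1, hSb1⟩ : ∃ S' : SimpleQuot (toK O (H.subgroupOf K) b1), S'.n = Sb.n := by
    rw [hb1, toK_trE]
    exact ⟨sqE hHK Sb, rfl⟩
  obtain ⟨Sf1, hSf1⟩ : ∃ S' : SimpleQuot (toK O (N.subgroupOf K) f1), S'.n = Sf.n := by
    rw [hf1, toK_trE]
    exact ⟨sqE hNK Sf, rfl⟩
  have hFF1 : F1 * inv' F1 = 0 := by
    apply incl_injective K
    rw [map_mul, hinc, hinc', hFF, map_zero]
  have hT1 : ∀ g ∈ N.subgroupOf K, cj g F1 = F1 := by
    intro g hg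
    apply incl_injective K
    rw [← incl_cj', hinc]
    exact hFN g (Subgroup.mem_subgroupOf.1 hg)
  have hT2 : ∀ g, g ∉ N.subgroupOf K → cj g F1 = inv' F1 := by
    intro g hg
    apply incl_injective K
    rw [← incl_cj', hinc, hinc']
    exact hsw g g.2 (fun h => hg (Subgroup.mem_subgroupOf.2 h))
  have hF1i : F1 * F1 = F1 := by
    apply incl_injective K
    rw [map_mul, hinc, hFi]
  have hF10 : F1 ≠ 0 := by
    intro h
    apply hF0
    rw [← hinc, h, map_zero]
  have hF1ne : inv' F1 ≠ F1 := by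
    intro h
    apply hF10
    rw [← hF1i]
    nth_rewrite 2 [← h]
    exact hFF1
  have hex : ∃ g, g ∉ N.subgroupOf K := by
    by_contra hcon
    push Not at hcon
    have h3 : N.subgroupOf K = ⊤ := by
      rw [eq_top_iff]
      intro g _
      exact hcon g
    rw [h3, Subgroup.index_top] at hidx'
    omega
  have hbl := isBlock_two f1 hfl1 (by rw [hfF1]; exact hFF1)
    (by rw [hfF1]; exact hT2) hex
  obtain ⟨SK⟩ := two_simple O hidx' f1 hfl1 Sf1 (by rw [hfF1]; exact hFF1)
    (by rw [hfF1]; exact hT2)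
  rw [hfF1] at hbl SK
  rw [hres]
  refine ⟨SK, ?_⟩
  intro w P Q hw hPQ hne
  have hbr1 : inv' b1 ≠ b1 := by
    intro h
    apply hF1ne
    rw [hF1, incl_inv', h]
  have her : inv' (F1 + inv' F1) = F1 + inv' F1 := by rw [inv'_add, inv'_inv', add_comm]
  have hF'F : inv' F1 * F1 = 0 := by
    obtain ⟨z, hz⟩ := hex
    have h1 := cj_mul z F1 (inv' F1)
    rw [hFF1, ← cj_inv', hT2 z hz, inv'_inv'] at h1
    rw [← h1]
    unfold cj
    rw [mul_zero, zero_mul]
  have hsol1 := solv_tr hH hNK hsol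
  refine nc_sum O h2 (hH.subgroupOf K) b1 hbl1 hbr1 Sb1 (T := N.subgroupOf K) ?_ hsol1 ?_ hbl her
    SK ?_ hw hPQ hne
  · intro g
    rw [← hF1]
    constructor
    · exact hT1 g
    · intro h
      by_contra hg
      rw [hT2 g hg] at h
      exact hF1ne h
  · rw [← hF1]
    rintro ⟨z, hz, hzz⟩
    obtain ⟨q, hq⟩ := hdat ⟨z, by rw [← hinc, incl_cj', hz, incl_inv'],
      Subgroup.mem_subgroupOf.1 hzz⟩
    rw [hSb1]
    exact ⟨q, dat_sub O hq K hHK F1 hinc⟩
  · rw [← hF1, add_mul, hF1i, hF'F, add_zero]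

end Pool.Agent.Helper36.ST
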