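import Pool.Agent.Helper36.NC.N5

/-!
# Blocks over a normal subgroup with solvable quotient: definitions
-/

set_option autoImplicit false
open scoped BigOperators MonoidAlgebra
open Classical

namespace Pool.Agent.Helper36.ST

open Pool.Agent.Helper36.NB Pool.Agent.Helper44.S3 Pool.Agent.Helper36.NC

/-- The total identity for the block `e`, all defect pairs. -/
def Tot (O : ValuationSubring ℂ) {G : Type} [Group G] [Fintype G] (e : MonoidAlgebra O G)
    (n : ℕ) : Prop :=
  ∀ (x : G) (D E : Subgroup G), IsDefectClass O e x → IsDefectPair x D E → D ≠ E →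
    ∑ g : G, ((e.coeff (g * g) : O) : ℂ) =
      n * (Nat.card {y : G // y ∈ E ∧ y ∉ D ∧ y * y = 1} : ℂ)

/-- The data of the block `F` of the normal subgroup `H`, which are carried along. -/
def HDat (O : ValuationSubring ℂ) {G : Type} [Group G] [Fintype G] (H : Subgroup G)
    (F : MonoidAlgebra O G) (n : ℕ) : Prop :=
  (∃ z, cj z F = inv' F ∧ z * z ∈ H) → ∃ q, Dat O H F n q

/-- A unit `u` (inverse `u'`) of `k[G] F` supported on the coset `H x`, which commutes with
`k[H]`. -/
structure UC {k : Type} [Field k] {G : Type} [Group G] (H : Subgroup G) (F : MonoidAlgebra k G)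
    (x : G) (u u' : MonoidAlgebra k G) : Prop where
  supp : ∀ g, g * x⁻¹ ∉ H → u.coeff g = 0
  supp' : ∀ g, g * x ∉ H → u'.coeff g = 0
  left : F * u = u
  left' : F * u' = u'
  mul : u * u' = F
  mul' : u' * u = F
  com : ∀ h ∈ H, el k h * u = u * el k h
  com' : ∀ h ∈ H, el k h * u' = u' * el k h

/-- Twisting data: `π : A → B` is surjective with central kernel of order `3`, and `lam` is a linear
character of `A` which is faithful on the kernel. -/
structure Tw (R : Type) [CommRing R] (A B : Type) [Group A] [Group B] where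
  π : A →* B
  lam : A →* Rˣ
  t : R
  surj : Function.Surjective π
  cen : ∀ z ∈ π.ker, ∀ a, z * a = a * z
  card : Nat.card π.ker = 3
  t3 : 3 * t = 1
  sum : ∀ z ∈ π.ker, z ≠ 1 → 1 + (lam z : R) + (lam z : R) ^ 2 = 0

/-- The element `y` of `R[B]` as an element of the part `λ` of `R[A]`. -/
noncomputable def tw {R : Type} [CommRing R] {A B : Type} [Group A] [Group B] [Fintype A]
    (W : Tw R A B) (y : MonoidAlgebra R B) : MonoidAlgebra R A :=
  ∑ a : A, (W.t * ((W.lam a)⁻¹ : Rˣ) * y.coeff (W.π a)) • el R a

/-- Reduction of the twisting data. -/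
noncomputable def Tw.red {O : ValuationSubring ℂ} {A B : Type} [Group A] [Group B]
    (W : Tw O A B) : Tw (resK O) A B where
  π := W.π
  lam := (Units.map (IsLocalRing.residue O : O →* resK O)).comp W.lam
  t := IsLocalRing.residue O W.t
  surj := W.surj
  cen := W.cen
  card := W.card
  t3 := by
    have h := congrArg (IsLocalRing.residue O) W.t3
    rw [map_mul, map_one] at h
    rw [← h]
    congr 1
  sum := by
    intro z hz hz1
    have h := congrArg (IsLocalRing.residue O) (W.sum z hz hz1)
    rw [map_add, map_add, map_one, map_pow, map_zero] at h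
    exact h

end Pool.Agent.Helper36.ST
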