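import Pool.Agent.Helper36.ST.Defs
import Pool.Agent.Helper36.NB.C2

/-!
# Lifting to `O`; blocks of a subgroup below a block
-/

set_option autoImplicit false
open scoped BigOperators MonoidAlgebra
open Classical

namespace Pool.Agent.Helper36.ST

open Pool.Agent.Helper36.NB Pool.Agent.Helper44.S3 Pool.Agent.Helper36.NC

theorem coset_lift (O : ValuationSubring ℂ) {N : Type} [Group N] [Finite N] {H : Subgroup N}
    (f : MonoidAlgebra O N) (hff : f * f = f)
    (hk : ∀ x : N, ∃ a : MonoidAlgebra (resK O) H,
      el (resK O) x * toK O N f = incl (resK O) H a * toK O N f) :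
    ∀ x : N, ∃ a : MonoidAlgebra O H, el O x * f = incl O H a * f := by
  have : Fintype N := Fintype.ofFinite N
  let M : Submodule O (MonoidAlgebra O N) := Submodule.span O (Set.range fun x : N => el O x * f)
  let M' : Submodule O (MonoidAlgebra O N) :=
    Submodule.span O (Set.range fun x : H => el O (x : N) * f)
  have hexp : ∀ y : MonoidAlgebra O N, y = ∑ g : N, y.coeff g • el O g := by
    intro y
    ext x
    rw [MonoidAlgebra.coeff_sum, Finsupp.finsetSum_apply, Finset.sum_eq_single x]
    · rw [MonoidAlgebra.coeff_smul, Finsupp.smul_apply, el_coeff, if_pos rfl, smul_eq_mul, mul_one]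
    · intro z _ hz
      rw [MonoidAlgebra.coeff_smul, Finsupp.smul_apply, el_coeff, if_neg hz, smul_eq_mul, mul_zero]
    · intro h
      exact absurd (Finset.mem_univ x) h
  have hM' : ∀ a : MonoidAlgebra O H, incl O H a * f ∈ M' := by
    intro a
    induction a using MonoidAlgebra.induction_linear with
    | zero => rw [map_zero, zero_mul]; exact M'.zero_mem
    | add x y hx hy => rw [map_add, add_mul]; exact M'.add_mem hx hy
    | single h r =>
      have h1 : incl O H (MonoidAlgebra.single h r) = r • el O (h : N) := by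
        rw [incl_single, el, MonoidAlgebra.smul_single, smul_eq_mul, mul_one]
      rw [h1, smul_mul_assoc]
      exact M'.smul_mem _ (Submodule.subset_span ⟨h, rfl⟩)
  have hFG : M.FG := Submodule.fg_span (Set.finite_range _)
  have hle : M ≤ M' ⊔ IsLocalRing.maximalIdeal O • M := by
    rw [Submodule.span_le]
    rintro _ ⟨x, rfl⟩
    obtain ⟨a, ha⟩ := hk x
    obtain ⟨a', rfl⟩ := toK_surjective O a
    have h0 : toK O N (el O x * f - incl O H a' * f) = 0 := by
      rw [map_sub, map_mul, map_mul, toK_el, ha]
      have h1 : toK O N (incl O H a') = incl (resK O) H (toK O H a') := by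
        have h2 := toK_mp O H.subtype a'
        exact h2
      rw [h1, sub_self]
    set y := el O x * f - incl O H a' * f with hy
    have hyf : y = y * f := by
      rw [hy, sub_mul, mul_assoc, hff, mul_assoc, hff]
    have hmem : y ∈ IsLocalRing.maximalIdeal O • M := by
      rw [hyf]
      nth_rewrite 1 [hexp y]
      rw [Finset.sum_mul]
      refine Submodule.sum_mem _ fun g _ => ?_
      rw [smul_mul_assoc]
      apply Submodule.smul_mem_smul
      · rw [← IsLocalRing.residue_eq_zero_iff, ← toK_apply, h0]
        rfl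
      · exact Submodule.subset_span ⟨g, rfl⟩
    have h3 : el O x * f = incl O H a' * f + y := by rw [hy]; abel
    change el O x * f ∈ _
    rw [h3]
    exact Submodule.add_mem_sup (hM' a') hmem
  have hMM := Submodule.le_of_le_smul_of_le_jacobson_bot hFG
    (by rw [IsLocalRing.jacobson_eq_maximalIdeal ⊥ bot_ne_top]) hle
  intro x
  have hx : el O x * f ∈ M' := hMM (Submodule.subset_span ⟨x, rfl⟩)
  -- elements of `M'`
  have key : ∀ y ∈ M', ∃ a : MonoidAlgebra O H, y = incl O H a * f := by
    intro y hy
    induction hy using Submodule.span_induction with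
    | mem y hy =>
      obtain ⟨h, rfl⟩ := hy
      exact ⟨el O h, by rw [incl_el]⟩
    | zero => exact ⟨0, by rw [map_zero, zero_mul]⟩
    | add y z _ _ hy hz =>
      obtain ⟨a, rfl⟩ := hy
      obtain ⟨c, rfl⟩ := hz
      exact ⟨a + c, by rw [map_add, add_mul]⟩
    | smul r y _ hy =>
      obtain ⟨a, rfl⟩ := hy
      refine ⟨r • a, ?_⟩
      have h1 : incl O H (r • a) = r • incl O H a := mp_smul (i := H.subtype) r a
      rw [h1, smul_mul_assoc]
  exact key _ hx

theorem exists_block_over {k : Type} [Field k] {G : Type} [Group G] [Finite G] {N : Subgroup G}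
    (F : MonoidAlgebra k N) (hF : F * F = F) (hFc : ∀ a, a * F = F * a) (e : MonoidAlgebra k G)
    (he : e * incl k N F ≠ 0) :
    ∃ f : MonoidAlgebra k N, IsBlock f ∧ f * F = f ∧ e * incl k N f ≠ 0 := by
  have hfin : Module.Finite k (MonoidAlgebra k N) := by
    infer_instance
  let dim : MonoidAlgebra k N → ℕ := fun f =>
    Module.finrank k (LinearMap.range (LinearMap.mulRight k f))
  have hex : ∃ n : ℕ, ∃ f : MonoidAlgebra k N, f * f = f ∧ (∀ a, a * f = f * a) ∧ f * F = f ∧
      e * incl k N f ≠ 0 ∧ dim f = n := ⟨_, F, hF, hFc, hF, he, rfl⟩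
  obtain ⟨f, hf, hfc, hfF, hyf, hdim⟩ := Nat.find_spec hex
  have hmin : ∀ g : MonoidAlgebra k N, g * g = g → (∀ a, a * g = g * a) → g * F = g →
      e * incl k N g ≠ 0 → dim f ≤ dim g := by
    intro g hg hgc hgF hyg
    rw [hdim]
    exact Nat.find_min' hex ⟨g, hg, hgc, hgF, hyg, rfl⟩
  have hmain : ∀ g : MonoidAlgebra k N, g * g = g → (∀ a, a * g = g * a) →
      e * incl k N (g * f) ≠ 0 → g * f = f := by
    intro g hg hgc hyg
    have h1 : dim f ≤ dim (g * f) := by
      apply hmin
      · calc g * f * (g * f) = g * (f * g) * f := by noncomm_ring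
          _ = g * (g * f) * f := by rw [hgc f]
          _ = (g * g) * (f * f) := by noncomm_ring
          _ = g * f := by rw [hg, hf]
      · intro a
        rw [← mul_assoc, hgc a, mul_assoc, hfc a, mul_assoc]
      · rw [mul_assoc, hfF]
      · exact hyg
    have hle : LinearMap.range (LinearMap.mulRight k (g * f)) ≤
        LinearMap.range (LinearMap.mulRight k f) := by
      rintro _ ⟨a, rfl⟩
      refine ⟨a * g, ?_⟩
      simp [mul_assoc]
    have heq := Submodule.eq_of_le_of_finrank_le hle h1
    have hmem : f ∈ LinearMap.range (LinearMap.mulRight k f) := ⟨1, by simp⟩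
    rw [← heq] at hmem
    obtain ⟨a, ha⟩ := hmem
    simp only [LinearMap.mulRight_apply] at ha
    calc g * f = f * g := (hgc f).symm
      _ = a * (g * f) * g := by rw [ha]
      _ = a * g * (f * g) := by noncomm_ring
      _ = a * g * (g * f) := by rw [hgc f]
      _ = a * ((g * g) * f) := by noncomm_ring
      _ = f := by rw [hg, ha]
  refine ⟨f, ⟨?_, hf, hfc, ?_⟩, hfF, hyf⟩
  · intro h0
    rw [h0, map_zero, mul_zero] at hyf
    exact hyf rfl
  · intro g hg hgc
    by_cases h0 : e * incl k N (g * f) = 0
    · left
      have h1 : e * incl k N ((1 - g) * f) ≠ 0 := by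
        intro h
        apply hyf
        have h5 : f = g * f + (1 - g) * f := by noncomm_ring
        rw [h5, map_add, mul_add, h0, h, add_zero]
      have h2 := hmain (1 - g) (by
          have : (1 - g) * (1 - g) = 1 - g - g + g * g := by noncomm_ring
          rw [this, hg]; abel) (by
          intro a
          rw [mul_sub, sub_mul, hgc a, mul_one, one_mul]) h1
      rw [sub_mul, one_mul, sub_eq_self] at h2
      exact h2
    · right
      exact hmain g hg hgc h0

end Pool.Agent.Helper36.ST
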