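import Pool.Agent.Helper36.ST.Defs
import Pool.Agent.Helper36.NC.C
import Pool.Agent.Helper36.NB.G1

/-!
# Fixed points in the support of a factor
-/

set_option autoImplicit false
open scoped BigOperators MonoidAlgebra
open Classical

namespace Pool.Agent.Helper36.ST

open Pool.Agent.Helper36.NB Pool.Agent.Helper44.S3 Pool.Agent.Helper36.NC

/-- the twisted conjugation -/
private noncomputable def tc {G : Type} [Group G] (D : Subgroup G) (t c : G) : G :=
  if t ∈ D then t * c * t⁻¹ else t * c⁻¹ * t⁻¹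

private theorem tc_mem {G : Type} [Group G] {D : Subgroup G} {t : G} (h : t ∈ D) (c : G) :
    tc D t c = t * c * t⁻¹ := if_pos h

private theorem tc_not {G : Type} [Group G] {D : Subgroup G} {t : G} (h : t ∉ D) (c : G) :
    tc D t c = t * c⁻¹ * t⁻¹ := if_neg h

private theorem tc_one {G : Type} [Group G] (D : Subgroup G) (c : G) : tc D 1 c = c := by
  rw [tc_mem D.one_mem]
  group

private theorem tc_mul {G : Type} [Group G] {D E : Subgroup G}
    (hidx : ∀ t ∈ E, ∀ t' ∈ E, t ∉ D → t' ∉ D → t * t' ∈ D) {t t' : G} (ht : t ∈ E) (ht' : t' ∈ E)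
    (c : G) : tc D (t * t') c = tc D t (tc D t' c) := by
  by_cases h : t ∈ D
  · by_cases h' : t' ∈ D
    · rw [tc_mem (D.mul_mem h h'), tc_mem h, tc_mem h']
      group
    · rw [tc_not (fun h2 => h' ((D.mul_mem_cancel_left h).1 h2)), tc_mem h, tc_not h']
      group
  · by_cases h' : t' ∈ D
    · rw [tc_not (fun h2 => h ((D.mul_mem_cancel_right h').1 h2)), tc_not h, tc_mem h']
      group
    · rw [tc_mem (hidx t ht t' ht' h h'), tc_not h, tc_not h']
      group

theorem fix_pt {k : Type} [Field k] [CharP k 2] {G : Type} [Group G] [Fintype G]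
    (a h : MonoidAlgebra k G) (hainv : inv' a = a) (hhinv : inv' h = h) (D E : Subgroup G)
    (hE : IsPGroup 2 E) (hDE : D ≤ E)
    (hidx : ∀ t ∈ E, ∀ t' ∈ E, t ∉ D → t' ∉ D → t * t' ∈ D)
    (hcen : ∀ t ∈ E, el k t * a = a * el k t) (hcenh : ∀ t ∈ E, el k t * h = h * el k t) (x : G)
    (hxa : el k x * a = a * el k x) (hx : PairIn D E x) (hne : (h * a).coeff x ≠ 0) :
    ∃ c, h.coeff c ≠ 0 ∧ PairIn D E c := by
  -- commutation with a group element
  have hcomg : ∀ y : MonoidAlgebra k G, ∀ t : G, el k t * y = y * el k t →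
      ∀ g, y.coeff (t * g * t⁻¹) = y.coeff g := by
    intro y t ht g
    have h1 := congrArg (fun z => z.coeff (t * g)) ht
    simp only [el_mul_coeff, mul_el_coeff] at h1
    rw [← h1, inv_mul_cancel_left]
  have hcom := hcomg a
  have hcomh := hcomg h
  have hinv : ∀ g, a.coeff g⁻¹ = a.coeff g := by
    intro g
    rw [← inv'_coeff, hainv]
  have hinvh : ∀ g, h.coeff g⁻¹ = h.coeff g := by
    intro g
    rw [← inv'_coeff, hhinv]
  -- the action
  let act : MulAction E G :=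
    { smul := fun t c => tc D (t : G) c
      one_smul := fun c => tc_one D c
      mul_smul := fun t t' c => tc_mul hidx t.2 t'.2 c }
  have hact : ∀ (t : E) (c : G), t • c = tc D t c := fun t c => rfl
  have hF : ∀ (t : E) (c : G),
      h.coeff (t • c) * a.coeff ((t • c)⁻¹ * x) = h.coeff c * a.coeff (c⁻¹ * x) := by
    intro t c
    rw [hact]
    by_cases ht : (t : G) ∈ D
    · rw [tc_mem ht]
      have h1 := hx.1 t ht
      have h2 : ((t : G) * c * (t : G)⁻¹)⁻¹ * x = (t : G) * (c⁻¹ * x) * (t : G)⁻¹ := by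
        conv_lhs => rw [← h1]
        group
      rw [h2, hcom t (hcen t t.2), hcomh t (hcenh t t.2)]
    · rw [tc_not ht]
      have h1 := hx.2 t t.2 ht
      have h1' : x = (t : G) * x⁻¹ * (t : G)⁻¹ := by
        calc x = (x⁻¹)⁻¹ := (inv_inv x).symm
          _ = ((t : G) * x * (t : G)⁻¹)⁻¹ := by rw [h1]
          _ = (t : G) * x⁻¹ * (t : G)⁻¹ := by group
      have h2 : ((t : G) * c⁻¹ * (t : G)⁻¹)⁻¹ * x =
          (t : G) * (c * x⁻¹) * (t : G)⁻¹ := by
        calc ((t : G) * c⁻¹ * (t : G)⁻¹)⁻¹ * x =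
            ((t : G) * c⁻¹ * (t : G)⁻¹)⁻¹ * ((t : G) * x⁻¹ * (t : G)⁻¹) := by rw [← h1']
          _ = (t : G) * (c * x⁻¹) * (t : G)⁻¹ := by group
      rw [h2, hcom t (hcen t t.2), ← hinv, ← hcom x hxa (c⁻¹ * x), hcomh t (hcenh t t.2), hinvh]
      congr 2
      group
  have hsum := sum_fixed hE (fun c : G => h.coeff c * a.coeff (c⁻¹ * x)) hF
  have hcoef : (h * a).coeff x = ∑ c : G, h.coeff c * a.coeff (c⁻¹ * x) := coeff_mul_all h a x
  rw [hcoef, hsum] at hne
  obtain ⟨c, hc, hc0⟩ := Finset.exists_ne_zero_of_sum_ne_zero hne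
  have hfix := ((@Finset.mem_filter _ _ (_) _ _).1 hc).2
  refine ⟨c, left_ne_zero_of_mul hc0, ?_, ?_⟩
  · intro d hd
    have h1 := hfix ⟨d, hDE hd⟩
    rw [hact, tc_mem hd] at h1
    exact h1
  · intro t ht htD
    have h1 := hfix ⟨t, ht⟩
    rw [hact, tc_not htD] at h1
    have h2 : t * c⁻¹ * t⁻¹ = c := h1
    calc t * c * t⁻¹ = (t * c⁻¹ * t⁻¹)⁻¹ := by group
      _ = c⁻¹ := by rw [h2]

end Pool.Agent.Helper36.ST
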