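import Pool.Agent.Helper36.ST.Defs
import Pool.Agent.Helper36.NC.L

/-!
# Stabilisers and the Fong-Reynolds step
-/

set_option autoImplicit false
open scoped BigOperators MonoidAlgebra
open Classical

namespace Pool.Agent.Helper36.ST

open Pool.Agent.Helper36.NB Pool.Agent.Helper44.S3 Pool.Agent.Helper36.NC

/-- The structure of the stabilisers. -/
theorem stab_two_ne {R : Type} [CommRing R] {G : Type} [Group G] [Fintype G] {H : Subgroup G}
    (hH : H.Normal) (b : MonoidAlgebra R H) (hb : IsBlock b) (hbr : inv' b ≠ b)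
    {T : Subgroup G} (hT : ∀ g, g ∈ T ↔ cj g (incl R H b) = incl R H b)
    {e : MonoidAlgebra R G} (he : IsBlock e) (her : inv' e = e)
    (heb : e * incl R H b ≠ 0) :
    incl R H b * inv' (incl R H b) = 0 ∧ H ≤ T ∧
    ∃ G1 : Subgroup G, Impr G1 (incl R H b + inv' (incl R H b)) ∧ T ≤ G1 ∧
      (T.subgroupOf G1).index = 2 ∧ (∀ g ∈ G1, g ∉ T → cj g (incl R H b) = inv' (incl R H b)) := by
  obtain ⟨hb0, hbb, hbc, hbp⟩ := id hb
  have hbi := isBlock_inv hb
  set F := incl R H b with hF
  have hFi' : inv' F = incl R H (inv' b) := incl_inv' H b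
  have hFi : F * F = F := by rw [hF, ← map_mul, hbb]
  have hII : inv' F * inv' F = inv' F := by rw [← inv'_mul, hFi]
  have hF0 : F ≠ 0 := by
    intro h
    apply hb0
    exact incl_injective H (by rw [← hF, h, map_zero])
  have hbi0 : b * inv' b = 0 := by
    rcases block_orth hb hbi with h | h
    · exact h
    · exact absurd h.symm hbr
  have hFF : F * inv' F = 0 := by rw [hFi', hF, ← map_mul, hbi0, map_zero]
  have hFF' : inv' F * F = 0 := by rw [hFi', hF, ← map_mul, hbc, hbi0, map_zero]
  have hneF : inv' F ≠ F := by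
    intro h
    apply hF0
    rw [h, hFi] at hFF
    exact hFF
  have hFs : ∀ g, g ∉ H → F.coeff g = 0 := fun g hg => incl_supp H b hg
  have hcH : ∀ g ∈ H, cj g F = F := by
    intro g hg
    rw [cj_eq_iff, hF]
    have h1 := congrArg (incl R H) (hbc (el R ⟨g, hg⟩))
    rw [map_mul, map_mul, incl_el] at h1
    exact h1
  have hHT : H ≤ T := fun g hg => (hT g).2 (hcH g hg)
  -- orthogonality
  have o1 : ∀ g, F * cj g F = 0 ∨ cj g F = F := by
    intro g
    rcases conj_orth hH hb hb 1 g with h | h
    · left
      rwa [cj_one] at h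
    · right
      rw [cj_one] at h
      exact h.symm
  have o2 : ∀ g, inv' F * cj g F = 0 ∨ cj g F = inv' F := by
    intro g
    rcases conj_orth hH hbi hb 1 g with h | h
    · left
      rw [cj_one, ← hFi'] at h
      exact h
    · right
      rw [cj_one, ← hFi'] at h
      exact h.symm
  have o1' : ∀ g, cj g F * F = 0 ∨ cj g F = F := by
    intro g
    rcases conj_orth hH hb hb g 1 with h | h
    · left
      rwa [cj_one] at h
    · right
      rw [cj_one] at h
      exact h
  have o2' : ∀ g, cj g F * inv' F = 0 ∨ cj g F = inv' F := by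
    intro g
    rcases conj_orth hH hb hbi g 1 with h | h
    · left
      rw [cj_one, ← hFi'] at h
      exact h
    · right
      rw [cj_one, ← hFi'] at h
      exact h
  have hinvc : ∀ g, cj g F = inv' F → cj g (inv' F) = F := by
    intro g h
    rw [← cj_inv', h, inv'_inv']
  have hfixc : ∀ g, cj g F = F → cj g (inv' F) = inv' F := by
    intro g h
    rw [← cj_inv', h]
  set h0 := F + inv' F with hh0
  have hhh : h0 * h0 = h0 := by
    rw [hh0, add_mul, mul_add, mul_add, hFi, hFF, hFF', hII, add_zero, zero_add]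
  have hhi : inv' h0 = h0 := by rw [hh0, inv'_add, inv'_inv', add_comm]
  -- the stabiliser of `h0`
  let G1 : Subgroup G :=
    { carrier := {g | cj g h0 = h0}
      one_mem' := cj_one h0
      mul_mem' := by
        intro x y hx hy
        change cj (x * y) h0 = h0
        rw [← cj_cj, show cj y h0 = h0 from hy, show cj x h0 = h0 from hx]
      inv_mem' := by
        intro x hx
        change cj x⁻¹ h0 = h0
        have h1 : cj x h0 = h0 := hx
        nth_rewrite 1 [← h1]
        rw [cj_cj, inv_mul_cancel, cj_one] }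
  have hmG1 : ∀ g, g ∈ G1 ↔ cj g h0 = h0 := fun g => Iff.rfl
  have hmG1' : ∀ g, g ∈ G1 ↔ cj g F = F ∨ cj g F = inv' F := by
    intro g
    rw [hmG1]
    constructor
    · intro h
      by_contra hcon
      push Not at hcon
      have h1 : cj g F * h0 = cj g F := by
        have h3 := cj_mul g F h0
        rw [h] at h3
        rw [← h3, hh0, mul_add, hFi, hFF, add_zero]
      have h3 : cj g F * h0 = 0 := by
        rw [hh0, mul_add, (o1' g).resolve_right hcon.1, (o2' g).resolve_right hcon.2, add_zero]
      rw [h1] at h3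
      apply hF0
      apply cj_inj g
      rw [h3]
      unfold cj
      rw [mul_zero, zero_mul]
    · rintro (h | h)
      · rw [hh0, cj_add, h, hfixc g h]
      · rw [hh0, cj_add, h, hinvc g h, add_comm]
  have hTG1 : T ≤ G1 := by
    intro g hg
    rw [hmG1']
    exact Or.inl ((hT g).1 hg)
  have hImpr : Impr G1 h0 :=
    { idem := hhh
      inv := hhi
      fix := fun g hg => hg
      orth := by
        intro g hg
        rw [hmG1'] at hg
        push Not at hg
        have h1 : F * cj g F = 0 := (o1 g).resolve_right hg.1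
        have h3 : inv' F * cj g F = 0 := (o2 g).resolve_right hg.2
        have h4 : F * cj g (inv' F) = 0 := by
          rcases conj_orth hH hb hbi 1 g with h | h
          · rw [cj_one, ← hFi'] at h
            exact h
          · rw [cj_one, ← hFi'] at h
            exfalso
            apply hg.2
            have h6 := congrArg inv' h
            rw [cj_inv', inv'_inv'] at h6
            exact h6.symm
        have h5 : inv' F * cj g (inv' F) = 0 := by
          rcases conj_orth hH hbi hbi 1 g with h | h
          · rw [cj_one, ← hFi'] at h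
            exact h
          · rw [cj_one, ← hFi'] at h
            exfalso
            apply hg.1
            have h6 := congrArg inv' h
            rw [cj_inv', inv'_inv'] at h6
            exact h6.symm
        rw [hh0, cj_add, add_mul, mul_add, mul_add, h1, h3, h4, h5, add_zero, add_zero]
      supp := by
        intro g hg
        have hgH : g ∉ H := fun h => hg (hTG1 (hHT h))
        rw [hh0, MonoidAlgebra.coeff_add, Finsupp.add_apply, inv'_coeff, hFs g hgH,
          hFs g⁻¹ (fun h => hgH (by simpa using H.inv_mem h)), add_zero] }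
  -- an element which swaps
  have hswap : ∃ g, cj g F = inv' F := by
    by_contra hcon
    push Not at hcon
    obtain ⟨Rt, hRt⟩ := exists_trans T
    set c := ∑ r ∈ Rt, cj r F with hc
    have hcc : ∀ y, y * c = c * y := trans_central hRt F (fun g hg => (hT g).1 hg)
    have hcinv : c * inv' F = 0 := by
      rw [hc, Finset.sum_mul]
      exact Finset.sum_eq_zero fun r _ => (o2' r).resolve_right (hcon r)
    have hcjF : ∀ r ∈ Rt, cj r F * c = cj r F := by
      intro r hr
      rw [hc, Finset.mul_sum, Finset.sum_eq_single r]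
      · rw [← cj_mul, hFi]
      · intro r' hr' hne
        rcases conj_orth hH hb hb r r' with h | h
        · exact h
        · exfalso
          apply hne
          obtain ⟨r0, -, -, hu⟩ := hRt r
          have h' : cj r F = cj r' F := h
          have h3 : r'⁻¹ * r ∈ T := by
            rw [hT, ← cj_cj, h', cj_cj, inv_mul_cancel, cj_one]
          rw [hu r' hr' h3, hu r hr (by rw [inv_mul_cancel]; exact T.one_mem)]
      · intro h
        exact absurd hr h
    have hci : c * c = c := by
      nth_rewrite 1 [hc]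
      rw [Finset.sum_mul, Finset.sum_congr rfl (fun r hr => hcjF r hr)]
    have hcF : c * F = F := by
      obtain ⟨r0, hr0, hr0T, -⟩ := hRt 1
      have h3 : cj r0 F = F := by
        rw [← hT]
        have := T.inv_mem hr0T
        rwa [mul_one, inv_inv] at this
      have h4 := hcjF r0 hr0
      rw [h3, hcc] at h4
      exact h4
    have heinv : e * inv' F ≠ 0 := by
      intro h
      apply heb
      have h4 := congrArg inv' h
      rw [inv'_mul, her, inv'_inv', inv'_zero] at h4
      rw [← he.2.2.1]
      exact h4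
    rcases he.2.2.2 c hci hcc with h | h
    · apply heb
      calc e * F = e * (c * F) := by rw [hcF]
        _ = (c * e) * F := by rw [← mul_assoc, hcc]
        _ = 0 := by rw [h, zero_mul]
    · apply heinv
      calc e * inv' F = e * c * inv' F := by rw [hcc e, h]
        _ = 0 := by rw [mul_assoc, hcinv, mul_zero]
  obtain ⟨g0, hg0⟩ := hswap
  refine ⟨hFF, hHT, G1, hImpr, hTG1, ?_, ?_⟩
  · rw [Subgroup.index_eq_two_iff]
    refine ⟨⟨g0, (hmG1' g0).2 (Or.inr hg0)⟩, ?_⟩
    rintro ⟨y, hy⟩
    rw [Subgroup.mem_subgroupOf, Subgroup.mem_subgroupOf]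
    simp only [Subgroup.coe_mul]
    rw [hmG1'] at hy
    rw [hT, hT, ← cj_cj, hg0]
    rcases hy with h | h
    · right
      rw [hfixc y h]
      exact ⟨h, hneF⟩
    · left
      rw [hinvc y h, h]
      exact ⟨rfl, hneF⟩
  · intro g hg hgT
    rw [hmG1'] at hg
    exact hg.resolve_left (fun h => hgT ((hT g).2 h))



private theorem impr_toK {O : ValuationSubring ℂ} {G : Type} [Group G] {G1 : Subgroup G}
    {h : MonoidAlgebra O G} (hI : Impr G1 h) : Impr G1 (toK O G h) where
  idem := by rw [← map_mul, hI.idem]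
  inv := by rw [← toK_inv', hI.inv]
  fix := fun g hg => by rw [← toK_cj, hI.fix g hg]
  orth := fun g hg => by rw [← toK_cj, ← map_mul, hI.orth g hg, map_zero]
  supp := fun g hg => by rw [toK_apply, hI.supp g hg, map_zero]

/-- The Fong-Reynolds step for the total identity. -/
theorem fr_total (O : ValuationSubring ℂ) (h2 : (2 : O) ∈ IsLocalRing.maximalIdeal O)
    {G : Type} [Group G] [Fintype G] {G1 : Subgroup G} {h0 : MonoidAlgebra O G}
    (hI : Impr G1 h0) {e : MonoidAlgebra O G} (he : IsBlock e) (her : inv' e = e)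
    (S : SimpleQuot (toK O G e)) (hne0 : e * h0 ≠ 0)
    (hmain : IsBlock (res G1 (e * h0)) → inv' (res G1 (e * h0)) = res G1 (e * h0) →
      ∀ S1 : SimpleQuot (toK O G1 (res G1 (e * h0))), Tot O (res G1 (e * h0)) S1.n) :
    Tot O e S.n := by
  intro x D E hx hDE hne
  obtain ⟨he0, hee, hec, hprim⟩ := id he
  obtain ⟨R, hR⟩ := exists_trans G1
  have hcov := fr_cover hI he hne0 hR
  obtain ⟨f1, f2, f3, f4, f5⟩ := fr_facts hI hee hec her hR hcov
  obtain ⟨S1, hS1⟩ : ∃ S1 : SimpleQuot (toK O G1 (res G1 (e * h0))), S.n = G1.index * S1.n := by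
    rw [toK_res, map_mul]
    refine fr_simple (impr_toK hI) (by rw [← map_mul, hee]) (fun y => ?_)
      (by rw [← toK_inv', her]) hR ?_ S
    · obtain ⟨y', rfl⟩ := toK_surjective O y
      rw [← map_mul, ← map_mul, hec]
    · conv_rhs => rw [← hcov]
      rw [map_mul, map_sum]
      simp only [toK_cj]
  obtain ⟨x1, hx1, hx1r⟩ := exists_real_class O h2 (res G1 (e * h0)) f2 f3 f4 S1
  obtain ⟨D1, E1, hDE1⟩ := exists_pair x1
  have hconj := defect_transfer O h2 e hee hec her S hx (pair_real hDE hne) hDE G1
    (res G1 (e * h0)) f2 f3 f4 S1 hR (by rw [f1]; exact f5) h0 f1 hI.inv hI.fix hx1 hx1r hDE1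
  have hne1 : D1 ≠ E1 := by
    rintro rfl
    obtain ⟨g, hg1, hg2⟩ := hconj
    apply hne
    ext t
    rw [hg1 t, hg2 t]
  have hterm := hmain (fr_block hI he her hR hcov) f4 S1 x1 D1 E1 hx1 hDE1 hne1
  -- the two counts
  have hcount : (Nat.card {y : G // y ∈ E ∧ y ∉ D ∧ y * y = 1}) =
      Nat.card {y : G1 // y ∈ E1 ∧ y ∉ D1 ∧ y * y = 1} := by
    obtain ⟨g, hg1, hg2⟩ := hconj
    have hmm : ∀ (A : Subgroup G1) (t : G1), (t : G) ∈ A.map G1.subtype ↔ t ∈ A := by
      intro A t
      constructor
      · rintro ⟨s, hs, hst⟩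
        have h1 : s = t := G1.subtype_injective hst
        rwa [← h1]
      · exact fun h => ⟨t, h, rfl⟩
    refine (Nat.card_congr ?_).symm
    refine { toFun := fun y => ⟨g⁻¹ * (y.1 : G) * g, ?_⟩,
             invFun := fun y => ⟨⟨g * y.1 * g⁻¹, ?_⟩, ?_⟩,
             left_inv := ?_, right_inv := ?_ }
    · have h1 : g * (g⁻¹ * (y.1 : G) * g) * g⁻¹ = y.1 := by group
      refine ⟨?_, ?_, ?_⟩
      · rw [hg2, h1, hmm]
        exact y.2.1
      · rw [hg1, h1, hmm]
        exact y.2.2.1
      · have h3 : (y.1 : G) * (y.1 : G) = 1 := congrArg (fun k : G1 => (k : G)) y.2.2.2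
        calc g⁻¹ * (y.1 : G) * g * (g⁻¹ * (y.1 : G) * g) = g⁻¹ * ((y.1 : G) * (y.1 : G)) * g := by
              group
          _ = 1 := by rw [h3]; group
    · obtain ⟨t, -, ht⟩ := (hg2 y.1).1 y.2.1
      rw [← ht]
      exact t.2
    · refine ⟨?_, ?_, ?_⟩
      · rw [← hmm]
        exact (hg2 y.1).1 y.2.1
      · rw [← hmm]
        exact fun h => y.2.2.1 ((hg1 y.1).2 h)
      · apply Subtype.ext
        change g * y.1 * g⁻¹ * (g * y.1 * g⁻¹) = 1
        calc g * y.1 * g⁻¹ * (g * y.1 * g⁻¹) = g * (y.1 * y.1) * g⁻¹ := by group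
          _ = 1 := by rw [y.2.2.2]; group
    · intro y
      apply Subtype.ext
      apply Subtype.ext
      change g * (g⁻¹ * (y.1 : G) * g) * g⁻¹ = y.1
      group
    · intro y
      apply Subtype.ext
      change g⁻¹ * (g * y.1 * g⁻¹) * g = y.1
      group
  -- the sum
  set F := e * h0 with hF
  have hFF : F * F = F := by
    calc e * h0 * (e * h0) = e * (h0 * e) * h0 := by noncomm_ring
      _ = e * (e * h0) * h0 := by rw [hec h0]
      _ = (e * e) * (h0 * h0) := by noncomm_ring
      _ = e * h0 := by rw [hee, hI.idem]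
  have hFi : inv' F = F := by rw [hF, inv'_mul, her, hI.inv, hec]
  have hFs : ∀ g, g ∉ G1 → F.coeff g = 0 := by
    intro g hg
    rw [← f1]
    exact incl_supp G1 _ hg
  have hForth : ∀ g, g ∉ G1 → F * cj g F = 0 := by
    intro g hg
    rw [hF, cj_mul, cj_of_central hec g]
    calc e * h0 * (e * cj g h0) = e * (h0 * e) * cj g h0 := by noncomm_ring
      _ = e * (e * h0) * cj g h0 := by rw [hec h0]
      _ = (e * e) * (h0 * cj g h0) := by noncomm_ring
      _ = 0 := by rw [hI.orth g hg, mul_zero]
  have hout : ∑ k ∈ Finset.univ.filter (fun k : G => k ∉ G1), F.coeff (k * k) = 0 := by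
    apply sum_sq_zero G1 hFF hFs
    · intro y hy k
      simp only [Finset.mem_filter, Finset.mem_univ, true_and]
      rw [Subgroup.mul_mem_cancel_left G1 hy]
    · intro k hk
      simp only [Finset.mem_filter, Finset.mem_univ, true_and] at hk
      rw [hFi]
      exact hForth _ (fun h => hk (by simpa using G1.inv_mem h))
  have hs0 : ∑ k : G, F.coeff (k * k) = ∑ k : G1, (res G1 F).coeff (k * k) := by
    rw [← Finset.sum_filter_add_sum_filter_not Finset.univ (fun g : G => g ∈ G1), hout, add_zero]
    symm
    refine Finset.sum_bij (fun (k : G1) _ => (k : G)) ?_ ?_ ?_ ?_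
    · intro k _
      simp
    · intro k _ k' _ h
      exact Subtype.ext h
    · intro g hg
      simp only [Finset.mem_filter, Finset.mem_univ, true_and] at hg
      exact ⟨⟨g, hg⟩, Finset.mem_univ _, rfl⟩
    · intro k _
      rw [res_coeff]
      rfl
  have hsr : ∀ r : G, ∑ k : G, (cj r F).coeff (k * k) = ∑ k : G, F.coeff (k * k) := by
    intro r
    refine Finset.sum_bij' (fun k _ => r⁻¹ * k * r) (fun k _ => r * k * r⁻¹)
      (fun _ _ => Finset.mem_univ _) (fun _ _ => Finset.mem_univ _) ?_ ?_ ?_
    · intro k _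
      group
    · intro k _
      group
    · intro k _
      rw [cj_coeff]
      congr 1
      group
  have hse : ∑ k : G, e.coeff (k * k) =
      (G1.index : O) * ∑ k : G1, (res G1 F).coeff (k * k) := by
    have h5 : ∀ k : G, e.coeff (k * k) = ∑ r ∈ R, (cj r F).coeff (k * k) := by
      intro k
      conv_lhs => rw [f5]
      rw [MonoidAlgebra.coeff_sum, Finsupp.finsetSum_apply]
    rw [Finset.sum_congr rfl (fun k _ => h5 k), Finset.sum_comm,
      Finset.sum_congr rfl (fun r _ => hsr r), Finset.sum_const, nsmul_eq_mul, trans_card hR, hs0]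
  have hseC := congrArg (fun z : O => (z : ℂ)) hse
  push_cast at hseC
  rw [hseC, hterm, hcount, hS1]
  push_cast
  ring

end Pool.Agent.Helper36.ST
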