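import Pool.Agent.Helper36.ST.Defs
import Pool.Agent.Helper32.NO.LevCent

/-!
# The blocks `f` of `N` with `R[N] f = R[H] f`
-/

set_option autoImplicit false
open scoped BigOperators MonoidAlgebra
open Classical

namespace Pool.Agent.Helper36.ST

open Pool.Agent.Helper36.NB Pool.Agent.Helper44.S3 Pool.Agent.Helper36.NC
open Pool.Agent.Helper32.NO

set_option linter.unusedSectionVars false

section alg

variable {R : Type} [CommRing R] {N : Type} [Group N] [Finite N] {H : Subgroup N}

omit [Finite N] in
theorem res_smul (c : R) (y : MonoidAlgebra R N) : res H (c • y) = c • res H y := by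
  ext h
  rw [res_coeff, MonoidAlgebra.coeff_smul, MonoidAlgebra.coeff_smul, Finsupp.smul_apply,
    Finsupp.smul_apply, res_coeff]

omit [Finite N] in
theorem single_eq (h : H) (r : R) : (MonoidAlgebra.single h r : MonoidAlgebra R H) =
    r • el R h := by
  rw [el, MonoidAlgebra.smul_single, smul_eq_mul, mul_one]

omit [Finite N] in
theorem incl_smul' (c : R) (y : MonoidAlgebra R H) : incl R H (c • y) = c • incl R H y :=
  mp_smul (i := H.subtype) c y

omit [Finite N] in
theorem res_incl_mul (a : MonoidAlgebra R H) (y : MonoidAlgebra R N) :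
    res H (incl R H a * y) = a * res H y := by
  induction a using MonoidAlgebra.induction_linear with
  | zero =>
    rw [map_zero, zero_mul, zero_mul]
    ext h
    rw [res_coeff]
    rfl
  | add x z hx hz => rw [map_add, add_mul, res_add, hx, hz, add_mul]
  | single h r =>
    rw [single_eq, incl_smul', incl_el, smul_mul_assoc, res_smul, res_el_mul, smul_mul_assoc]

omit [Finite N] in
theorem res_mul_incl (a : MonoidAlgebra R H) (y : MonoidAlgebra R N) :
    res H (y * incl R H a) = res H y * a := by
  induction a using MonoidAlgebra.induction_linear with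
  | zero =>
    rw [map_zero, mul_zero, mul_zero]
    ext h
    rw [res_coeff]
    rfl
  | add x z hx hz => rw [map_add, mul_add, res_add, hx, hz, mul_add]
  | single h r =>
    rw [single_eq, incl_smul', incl_el, mul_smul_comm, res_smul, res_mul_el, mul_smul_comm]

variable (f : MonoidAlgebra R N) (hff : f * f = f) (hfc : ∀ a, a * f = f * a)
  (hx : ∀ x : N, ∃ a : MonoidAlgebra R H, el R x * f = incl R H a * f)

include hff hfc hx

theorem comp_aux : f = (H.index : R) • (incl R H (res H f) * f) := by
  obtain ⟨Rt, hRt⟩ := exists_trans H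
  have h1 : f = ∑ r ∈ Rt, el R r * incl R H (res H (el R r⁻¹ * f)) := by
    ext g
    rw [MonoidAlgebra.coeff_sum, Finsupp.finsetSum_apply]
    obtain ⟨r0, hr0, hr0H, hu⟩ := hRt g
    rw [Finset.sum_eq_single r0]
    · rw [el_mul_coeff]
      have h2 := incl_coeff H (res H (el R r0⁻¹ * f)) ⟨r0⁻¹ * g, hr0H⟩
      change (incl R H (res H (el R r0⁻¹ * f))).coeff (r0⁻¹ * g) = _ at h2
      rw [h2, res_coeff, el_mul_coeff]
      congr 1
      change g = r0⁻¹⁻¹ * (r0⁻¹ * g)
      group
    · intro r hr hne
      rw [el_mul_coeff]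
      apply incl_supp
      intro h
      exact hne (hu r hr h)
    · intro h
      exact absurd hr0 h
  have h2 : f * f = ∑ r ∈ Rt, f * incl R H (res H f) := by
    nth_rewrite 1 [h1]
    rw [Finset.sum_mul]
    refine Finset.sum_congr rfl fun r _ => ?_
    obtain ⟨a, ha⟩ := hx r⁻¹
    rw [ha, res_incl_mul, map_mul]
    calc el R r * (incl R H a * incl R H (res H f)) * f
        = el R r * (incl R H a * (incl R H (res H f) * f)) := by simp only [mul_assoc]
      _ = el R r * (incl R H a * (f * incl R H (res H f))) := by rw [hfc (incl R H (res H f))]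
      _ = el R r * ((incl R H a * f) * incl R H (res H f)) := by simp only [mul_assoc]
      _ = el R r * ((el R r⁻¹ * f) * incl R H (res H f)) := by rw [ha]
      _ = (el R r * el R r⁻¹) * (f * incl R H (res H f)) := by simp only [mul_assoc]
      _ = _ := by rw [el_mul_el_inv, one_mul]
  rw [Finset.sum_const, trans_card hRt, hff] at h2
  rw [hfc, Nat.cast_smul_eq_nsmul]
  exact h2

theorem spec_all (y : MonoidAlgebra R N) : ∃ a : MonoidAlgebra R H, y * f = incl R H a * f := by
  induction y using MonoidAlgebra.induction_linear with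
  | zero => exact ⟨0, by rw [map_zero]⟩
  | add x z hx hz =>
    obtain ⟨a, ha⟩ := hx
    obtain ⟨c, hc⟩ := hz
    exact ⟨a + c, by rw [map_add, add_mul, add_mul, ha, hc]⟩
  | single g r =>
    obtain ⟨a, ha⟩ := hx g
    refine ⟨r • a, ?_⟩
    have h3 : (MonoidAlgebra.single g r : MonoidAlgebra R N) = r • el R g := by
      rw [el, MonoidAlgebra.smul_single, smul_eq_mul, mul_one]
    rw [h3, incl_smul', smul_mul_assoc, smul_mul_assoc, ha]

variable (b : MonoidAlgebra R H) (hb : IsBlock b) (hfF : f * incl R H b = f) (hf0 : f ≠ 0)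

include hb hfF hf0

theorem comp_H : (H.index : R) • res H f = b := by
  obtain ⟨hb0, hbb, hbc, hbp⟩ := id hb
  have h1 := comp_aux f hff hfc hx
  set g : MonoidAlgebra R H := (H.index : R) • res H f with hg
  have hgf : incl R H g * f = f := by
    rw [hg, incl_smul', smul_mul_assoc]
    exact h1.symm
  have h3 : (H.index : R) • (res H f * res H f) = res H f := by
    have h4 := congrArg (res H) h1
    rw [res_smul, res_incl_mul] at h4
    exact h4.symm
  have hgg : g * g = g := by
    rw [hg, smul_mul_assoc, mul_smul_comm, h3]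
  have hgc : ∀ a, a * g = g * a := by
    intro a
    rw [hg, mul_smul_comm, smul_mul_assoc, ← res_incl_mul, ← res_mul_incl, hfc]
  have hgb : g * b = g := by
    rw [hg, smul_mul_assoc, ← res_mul_incl, hfF]
  rcases hbp g hgg hgc with h | h
  · exfalso
    apply hf0
    rw [← hgf, ← hgb, h, map_zero, zero_mul]
  · rw [← hgb, h]

/-- The element of `R[H] b` by which `y` acts on `f`. -/
theorem theta_eq {y : MonoidAlgebra R N} {a : MonoidAlgebra R H}
    (ha : y * f = incl R H a * f) : (H.index : R) • res H (y * f) = a * b := by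
  rw [ha, res_incl_mul, ← mul_smul_comm, comp_H f hff hfc hx b hb hfF hf0]

theorem incl_b_mul : incl R H b * f = f := by
  rw [hfc, hfF]

theorem theta_spec (y : MonoidAlgebra R N) :
    y * f = incl R H ((H.index : R) • res H (y * f)) * f := by
  obtain ⟨a, ha⟩ := spec_all f hff hfc hx y
  rw [theta_eq f hff hfc hx b hb hfF hf0 ha, map_mul, mul_assoc,
    incl_b_mul f hff hfc hx b hb hfF hf0, ← ha]

end alg

/-- The simple quotient of `f`. -/
theorem simple_c {k : Type} [Field k] {N : Type} [Group N] [Finite N] {H : Subgroup N}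
    (f : MonoidAlgebra k N) (hff : f * f = f) (hfc : ∀ a, a * f = f * a)
    (hx : ∀ x : N, ∃ a : MonoidAlgebra k H, el k x * f = incl k H a * f)
    (b : MonoidAlgebra k H) (hb : IsBlock b) (hfF : f * incl k H b = f) (hf0 : f ≠ 0)
    (Sb : SimpleQuot b) : ∃ S : SimpleQuot f, S.n = Sb.n := by
  obtain ⟨hb0, hbb, hbc, hbp⟩ := id hb
  have hcH := comp_H f hff hfc hx b hb hfF hf0
  have hth := fun y a => theta_eq f hff hfc hx b hb hfF hf0 (y := y) (a := a)
  have hsp := theta_spec f hff hfc hx b hb hfF hf0
  have hbf := incl_b_mul f hff hfc hx b hb hfF hf0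
  let θ : MonoidAlgebra k N →ₗ[k] MonoidAlgebra k H :=
    { toFun := fun y => (H.index : k) • res H (y * f)
      map_add' := fun x y => by rw [add_mul, res_add, smul_add]
      map_smul' := fun c y => by
        rw [smul_mul_assoc, res_smul, RingHom.id_apply, smul_comm] }
  have hθ : ∀ y, θ y = (H.index : k) • res H (y * f) := fun y => rfl
  have hsp' : ∀ y, y * f = incl k H (θ y) * f := hsp
  have hθb : ∀ y, θ y * b = θ y := by
    intro y
    obtain ⟨a, ha⟩ := spec_all f hff hfc hx y
    rw [hθ, hth y a ha, mul_assoc, hbb]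
  have hθm : ∀ x y, θ (x * y) = θ x * θ y := by
    intro x y
    rw [hθ (x * y), hth (x * y) (θ x * θ y), mul_assoc, hθb]
    rw [map_mul]
    calc x * y * f = x * (y * f) := mul_assoc _ _ _
      _ = x * (incl k H (θ y) * f) := by rw [← hsp' y]
      _ = (x * f) * incl k H (θ y) := by rw [hfc, ← mul_assoc]
      _ = incl k H (θ x) * f * incl k H (θ y) := by rw [← hsp' x]
      _ = incl k H (θ x) * (f * incl k H (θ y)) := mul_assoc _ _ _
      _ = incl k H (θ x) * (incl k H (θ y) * f) := by rw [← hfc]
      _ = _ := (mul_assoc _ _ _).symm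
  have hθi : ∀ a, θ (incl k H a) = a * b := fun a => hth _ a rfl
  have hθ1 : θ 1 = b := by
    rw [← map_one (incl k H), hθi, one_mul]
  let ρ : MonoidAlgebra k N →ₐ[k] Matrix (Fin Sb.n) (Fin Sb.n) k :=
    AlgHom.ofLinearMap (Sb.ρ.toLinearMap ∘ₗ θ) (by
      change Sb.ρ (θ 1) = 1
      rw [hθ1, Sb.one]) (fun x y => by
      change Sb.ρ (θ (x * y)) = Sb.ρ (θ x) * Sb.ρ (θ y)
      rw [hθm, map_mul])
  have hρ : ∀ y, ρ y = Sb.ρ (θ y) := fun y => rfl
  refine ⟨{ n := Sb.n, ρ := ρ, pos := Sb.pos, surj := ?_, one := ?_, nil := ?_ }, rfl⟩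
  · intro M
    obtain ⟨a, ha⟩ := Sb.surj M
    refine ⟨incl k H a, ?_⟩
    rw [hρ, hθi, map_mul, Sb.one, mul_one, ha]
  · have h1 : θ f = b := by rw [hθ, hff, hcH]
    rw [hρ, h1, Sb.one]
  · intro y hy
    rw [hρ] at hy
    obtain ⟨r, hr⟩ := Sb.nil _ hy
    rw [hθb] at hr
    refine ⟨r, ?_⟩
    have h1 : ∀ r : ℕ, (y * f) ^ r * f = incl k H (θ y ^ r) * f := by
      intro r
      induction r with
      | zero => rw [pow_zero, pow_zero, map_one]
      | succ r ih =>
        have h5 : y * f * f = f * (y * f) := by rw [hfc (y * f)]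
        calc (y * f) ^ (r + 1) * f = (y * f) ^ r * (y * f * f) := by rw [pow_succ, mul_assoc]
          _ = (y * f) ^ r * f * (y * f) := by rw [h5, ← mul_assoc]
          _ = incl k H (θ y ^ r) * f * (y * f) := by rw [ih]
          _ = incl k H (θ y ^ r) * (f * (y * f)) := mul_assoc _ _ _
          _ = incl k H (θ y ^ r) * (y * f) := by rw [← h5, mul_assoc, hff]
          _ = incl k H (θ y ^ r) * (incl k H (θ y) * f) := by rw [← hsp' y]
          _ = _ := by rw [← mul_assoc, ← map_mul, ← pow_succ]
    have h3 := h1 r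
    rw [hr, map_zero, zero_mul] at h3
    have h4 : (y * f) ^ r * f = (y * f) ^ r ∨ r = 0 := by
      rcases r with _ | r
      · right; rfl
      · left
        rw [pow_succ, mul_assoc, mul_assoc, hff]
    rcases h4 with h4 | h4
    · rw [← h4, h3]
    · rw [h4, pow_zero, one_mul] at h3
      exact absurd h3 hf0

end Pool.Agent.Helper36.ST
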