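import Pool.Agent.Helper36.ST.DatC
import Pool.Agent.Helper36.ST.DatI
import Pool.Agent.Helper36.ST.E
import Pool.Agent.Helper36.ST.Fr
import Pool.Agent.Helper28.ST.B
import Pool.Agent.Helper28.ST.A
import Pool.Agent.Helper52.ST.C
import Pool.Agent.Helper52.NO.Ext
import Pool.Agent.Helper44.NO.P11
import Pool.Agent.Helper52.ST.D
import Pool.Agent.Helper52.ST.Odd
import Pool.Agent.Helper44.ST.Min

/-!
# The induction step
-/

set_option autoImplicit false
open scoped BigOperators MonoidAlgebra
open Classical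

namespace Pool.Agent.Helper36.ST

open Pool.Agent.Helper36.NB Pool.Agent.Helper44.S3 Pool.Agent.Helper36.NC

section uc

variable {k : Type} [Field k] {G : Type} [Group G] {H N : Subgroup G} (hHN : H ≤ N)
  (b : MonoidAlgebra k H)

theorem uc_res {x : N} {u u' : MonoidAlgebra k G} (h : UC H (incl k H b) (x : G) u u') :
    UC (H.subgroupOf N) (incl k (H.subgroupOf N) (trE hHN k b)) x (res N u) (res N u') := by
  have hF : incl k N (incl k (H.subgroupOf N) (trE hHN k b)) = incl k H b := incl_incl hHN b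
  have hu : incl k N (res N u) = u := by
    apply Pool.Agent.Helper44.S3.incl_res N
    intro g hg
    apply h.supp
    intro hcon
    apply hg
    have h3 := N.mul_mem (hHN hcon) x.2
    have h4 : g * (x : G)⁻¹ * x = g := by group
    rwa [h4] at h3
  have hu' : incl k N (res N u') = u' := by
    apply Pool.Agent.Helper44.S3.incl_res N
    intro g hg
    apply h.supp'
    intro hcon
    apply hg
    have h3 := N.mul_mem (hHN hcon) (N.inv_mem x.2)
    have h4 : g * (x : G) * (x : G)⁻¹ = g := by group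
    rwa [h4] at h3
  refine { supp := ?_, supp' := ?_, left := ?_, left' := ?_, mul := ?_, mul' := ?_, com := ?_,
           com' := ?_ }
  · intro g hg
    rw [res_coeff]
    exact h.supp g (fun hcon => hg (Subgroup.mem_subgroupOf.2 hcon))
  · intro g hg
    rw [res_coeff]
    exact h.supp' g (fun hcon => hg (Subgroup.mem_subgroupOf.2 hcon))
  · apply incl_injective N
    rw [map_mul, hF, hu, h.left]
  · apply incl_injective N
    rw [map_mul, hF, hu', h.left']
  · apply incl_injective N
    rw [map_mul, hF, hu, hu', h.mul]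
  · apply incl_injective N
    rw [map_mul, hF, hu, hu', h.mul']
  · intro g hg
    apply incl_injective N
    rw [map_mul, map_mul, hu, incl_el, h.com g (Subgroup.mem_subgroupOf.1 hg)]
  · intro g hg
    apply incl_injective N
    rw [map_mul, map_mul, hu', incl_el, h.com' g (Subgroup.mem_subgroupOf.1 hg)]

theorem uc_incl {x : N} {u u' : MonoidAlgebra k N}
    (h : UC (H.subgroupOf N) (incl k (H.subgroupOf N) (trE hHN k b)) x u u') :
    UC H (incl k H b) (x : G) (incl k N u) (incl k N u') := by
  have hF : incl k N (incl k (H.subgroupOf N) (trE hHN k b)) = incl k H b := incl_incl hHN b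
  rw [← hF]
  refine { supp := ?_, supp' := ?_, left := ?_, left' := ?_, mul := ?_, mul' := ?_, com := ?_,
           com' := ?_ }
  · intro g hg
    by_cases hgN : g ∈ N
    · have h3 := incl_coeff N u ⟨g, hgN⟩
      change (incl k N u).coeff g = _ at h3
      rw [h3]
      exact h.supp _ (fun hcon => hg (Subgroup.mem_subgroupOf.1 hcon))
    · exact incl_supp N _ hgN
  · intro g hg
    by_cases hgN : g ∈ N
    · have h3 := incl_coeff N u' ⟨g, hgN⟩
      change (incl k N u').coeff g = _ at h3
      rw [h3]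
      exact h.supp' _ (fun hcon => hg (Subgroup.mem_subgroupOf.1 hcon))
    · exact incl_supp N _ hgN
  · rw [← map_mul, h.left]
  · rw [← map_mul, h.left']
  · rw [← map_mul, h.mul]
  · rw [← map_mul, h.mul']
  · intro g hg
    have h3 := congrArg (incl k N) (h.com ⟨g, hHN hg⟩ (Subgroup.mem_subgroupOf.2 hg))
    rw [map_mul, map_mul, incl_el] at h3
    exact h3
  · intro g hg
    have h3 := congrArg (incl k N) (h.com' ⟨g, hHN hg⟩ (Subgroup.mem_subgroupOf.2 hg))
    rw [map_mul, map_mul, incl_el] at h3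
    exact h3

end uc

/-- An idempotent of `O[G]` below another one which agrees with it modulo the maximal ideal. -/
theorem eq_of_toK (O : ValuationSubring ℂ) {G : Type} [Group G] [Finite G] {f F : MonoidAlgebra O G}
    (hf : f * f = f) (hF : F * F = F) (hfF : f * F = f) (hFf : F * f = f)
    (h : toK O G f = toK O G F) : f = F := by
  have h1 : (F - f) * (F - f) = F - f := by
    rw [mul_sub, sub_mul, sub_mul, hF, hf, hfF, hFf, sub_self, sub_zero]
  have h3 := idem_eq_zero O h1 (by rw [map_sub, h, sub_self])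
  exact (sub_eq_zero.1 h3).symm

theorem relIndex_odd {G : Type} [Group G] [Finite G] {H N : Subgroup G} (hH : H.Normal) {r : ℕ}
    (hr : r.Prime) (hr2 : r ≠ 2) (hpow : ∀ x ∈ N, x ^ r ∈ H) : Odd (H.relIndex N) := by
  have hn : (H.subgroupOf N).Normal := hH.subgroupOf N
  rw [← Nat.not_even_iff_odd, even_iff_two_dvd]
  intro h2
  have h3 : 2 ∣ Nat.card (N ⧸ H.subgroupOf N) := h2
  have : Fact (Nat.Prime 2) := ⟨Nat.prime_two⟩
  obtain ⟨y, hy⟩ := exists_prime_orderOf_dvd_card' 2 h3
  have h4 : y ^ r = 1 := by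
    induction y using QuotientGroup.induction_on with
    | H y =>
      rw [← QuotientGroup.mk_pow, QuotientGroup.eq_one_iff, Subgroup.mem_subgroupOf]
      exact hpow y y.2
  have h5 := orderOf_dvd_of_pow_eq_one h4
  rw [hy] at h5
  exact hr2 ((Nat.prime_dvd_prime_iff_eq Nat.prime_two hr).1 h5).symm

theorem step (O : ValuationSubring ℂ) (h2 : (2 : O) ∈ IsLocalRing.maximalIdeal O) {G : Type}
    [Group G] [Fintype G] {H : Subgroup G} (hH : H.Normal) (hsol : Group.IsSolvable (G ⧸ H))
    (b : MonoidAlgebra O H) (hb : IsBlock b) (Sb : SimpleQuot (toK O H b))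
    (hdat : HDat O H (incl O H b) Sb.n) (e : MonoidAlgebra O G) (he : IsBlock e)
    (hne : e * incl O H b ≠ 0) {T : Subgroup G} (hTi : T.index = 2) (hHT : H ≤ T)
    (hT1 : ∀ g ∈ T, cj g (incl O H b) = incl O H b)
    (hT2 : ∀ g, g ∉ T → cj g (incl O H b) = inv' (incl O H b))
    (hFF : incl O H b * inv' (incl O H b) = 0) (hBne : e * incl O H b ≠ incl O H b) :
    ∃ (N : Subgroup G) (f : MonoidAlgebra O N) (Sf : SimpleQuot (toK O N f)), N.Normal ∧ H ≤ N ∧
      H ≠ N ∧ IsBlock f ∧ inv' f ≠ f ∧ HDat O N (incl O N f) Sf.n ∧ e * incl O N f ≠ 0 := by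
  have halg : IsAlgClosed (resK O) := resK_isAlgClosed O
  have hchar : CharP (resK O) 2 := resK_charP O h2
  obtain ⟨hb0, hbb, hbc, hbp⟩ := id hb
  obtain ⟨he0, hee, hec, hprim⟩ := id he
  have hTn : T.Normal := Subgroup.normal_of_index_eq_two hTi
  obtain ⟨F, hF⟩ : ∃ F, F = incl O H b := ⟨_, rfl⟩
  rw [← hF] at hdat hne hT1 hT2 hFF hBne
  have hFi : F * F = F := by rw [hF, ← map_mul, hbb]
  have hFs : ∀ g, g ∉ H → F.coeff g = 0 := fun g hg => by rw [hF]; exact incl_supp H b hg
  have hFT : ∀ n ∈ T, el O n * F = F * el O n := fun n hn => (cj_eq_iff n F).1 (hT1 n hn)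
  -- the block over `k`
  obtain ⟨bk, hbk⟩ : ∃ bk, bk = toK O H b := ⟨_, rfl⟩
  obtain ⟨Sbk⟩ : Nonempty (SimpleQuot bk) := by rw [hbk]; exact ⟨Sb⟩
  have hbkb : bk * bk = bk := by rw [hbk, ← map_mul, hbb]
  have hbkc : ∀ a, a * bk = bk * a := fun a => by
    obtain ⟨a', rfl⟩ := toK_surjective O a
    rw [hbk, ← map_mul, ← map_mul, hbc]
  have hFk : incl (resK O) H bk = toK O G F := by rw [hF, toK_incl, hbk]
  have kT1 : ∀ g ∈ T, cj g (incl (resK O) H bk) = incl (resK O) H bk := by
    intro g hg
    rw [hFk, ← toK_cj, hT1 g hg]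
  have kT2 : ∀ g, g ∉ T → cj g (incl (resK O) H bk) = inv' (incl (resK O) H bk) := by
    intro g hg
    rw [hFk, ← toK_cj, hT2 g hg, toK_inv']
  have heF : e * F * (e * F) = e * F := by
    calc e * F * (e * F) = e * (F * e) * F := by simp only [mul_assoc]
      _ = e * (e * F) * F := by rw [hec F]
      _ = (e * e) * (F * F) := by simp only [mul_assoc]
      _ = e * F := by rw [hee, hFi]
  have heFF : e * F * F = e * F := by rw [mul_assoc, hFi]
  have hFeF : F * (e * F) = e * F := by rw [← mul_assoc, hec F, mul_assoc, hFi]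
  -- the subgroup `X`
  obtain ⟨X, hXn, hHX, hXT, hX⟩ := Pool.Agent.Helper28.ST.exists_X hH bk hbkb hbkc T hTn hHT kT1 kT2
  have hXne : H ≠ X := by
    intro hcon
    have h3 := Pool.Agent.Helper28.ST.all_triv hH bk hbkb hbkc Sbk T hHT kT1 (toK O G (e * F))
      (by rw [← map_mul, heF]) (by rw [hFk, ← map_mul, heFF])
      (fun g hg => by
        rw [toK_apply, supp_stab hFi (fun g hg => hFs g (fun h => hg (hHT h)))
          (fun g hg => by rw [hT2 g hg, hFF]) hec g hg, map_zero])
      (fun h hh => by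
        rw [← toK_el, ← map_mul, ← map_mul]
        congr 1
        rw [← mul_assoc, hec, mul_assoc, hFT h (hHT hh), mul_assoc])
      (fun x hxT hxH u u' hu => hxH (by
        rw [hcon]
        exact (hX x).2 ⟨hxT, u, u', hu⟩))
    rcases h3 with h3 | h3
    · exact hne (idem_eq_zero O heF h3)
    · rw [hFk] at h3
      exact hBne (eq_of_toK O heF hFi heFF hFeF h3)
  obtain ⟨N, r, hN, hHN, hNX, hHNne, hr, hcomm, hpow, hmin⟩ :=
    Pool.Agent.Helper44.ST.exists_min hH hXn hHX hXne hsol
  have hNT : N ≤ T := hNX.trans hXT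
  have hNk : ∀ n ∈ N, el (resK O) n * incl (resK O) H bk = incl (resK O) H bk * el (resK O) n :=
    fun n hn => (cj_eq_iff n _).1 (kT1 n (hNT hn))
  -- the group `N`
  obtain ⟨bN, hbN⟩ : ∃ bN, bN = trE hHN O b := ⟨_, rfl⟩
  have hblN : IsBlock bN := by rw [hbN]; exact isBlock_trE hHN hb
  obtain ⟨FN, hFN⟩ : ∃ FN, FN = incl O (H.subgroupOf N) bN := ⟨_, rfl⟩
  have hinc : incl O N FN = F := by
    rw [hFN, hbN, hF]
    exact incl_incl hHN b
  obtain ⟨SbN, hSbN⟩ : ∃ S' : SimpleQuot (toK O (H.subgroupOf N) bN), S'.n = Sb.n := by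
    rw [hbN, toK_trE]
    exact ⟨sqE hHN Sb, rfl⟩
  have hNi : FN * FN = FN := by
    apply incl_injective N
    rw [map_mul, hinc, hFi]
  have hNc : ∀ a, a * FN = FN * a := by
    apply central_of_cj
    intro g
    apply incl_injective N
    rw [← incl_cj', hinc, hT1 g (hNT g.2)]
  have hHNn : (H.subgroupOf N).Normal := hH.subgroupOf N
  have hbkN : toK O (H.subgroupOf N) bN = trE hHN (resK O) bk := by rw [hbN, toK_trE, hbk]
  have hFkN : incl (resK O) (H.subgroupOf N) (toK O (H.subgroupOf N) bN) = toK O N FN := by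
    rw [hFN, toK_incl]
  have hinck : incl (resK O) N (toK O N FN) = incl (resK O) H bk := by
    rw [← toK_incl, hinc, hFk]
  -- the facts over `k` in `N`
  have kb1 : toK O (H.subgroupOf N) bN * toK O (H.subgroupOf N) bN =
      toK O (H.subgroupOf N) bN := by rw [← map_mul, hblN.2.1]
  have kb2 : ∀ a, a * toK O (H.subgroupOf N) bN = toK O (H.subgroupOf N) bN * a := fun a => by
    obtain ⟨a', rfl⟩ := toK_surjective O a
    rw [← map_mul, ← map_mul, hblN.2.2.1]
  have kF : ∀ g : N, cj g (incl (resK O) (H.subgroupOf N) (toK O (H.subgroupOf N) bN)) =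
      incl (resK O) (H.subgroupOf N) (toK O (H.subgroupOf N) bN) := by
    intro g
    rw [hFkN, ← toK_cj, cj_of_central hNc g]
  have kU : ∀ x : N, ∃ u u', UC (H.subgroupOf N)
      (incl (resK O) (H.subgroupOf N) (toK O (H.subgroupOf N) bN)) x u u' := by
    intro x
    obtain ⟨-, u, u', hu⟩ := (hX x).1 (hNX x.2)
    rw [hbkN]
    exact ⟨_, _, uc_res hHN bk hu⟩
  have kcomm : ∀ x y : N, x * y * x⁻¹ * y⁻¹ ∈ H.subgroupOf N := by
    intro x y
    rw [Subgroup.mem_subgroupOf]
    exact hcomm x x.2 y y.2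
  have kpow : ∀ x : N, x ^ r ∈ H.subgroupOf N := by
    intro x
    rw [Subgroup.mem_subgroupOf]
    exact hpow x x.2
  have hFN0 : toK O N FN ≠ 0 := by
    intro h0
    have h3 := idem_eq_zero O hNi h0
    apply hne
    rw [← hinc, h3, map_zero, mul_zero]
  have nonreal : ∀ f : MonoidAlgebra O N, f ≠ 0 → f * FN = f → inv' f ≠ f := by
    intro f hf0 hfF hfi
    apply hf0
    have h3 : inv' FN * f = f := by
      have h4 := congrArg inv' hfF
      rwa [inv'_mul, hfi] at h4
    have h5 : FN * inv' FN = 0 := by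
      apply incl_injective N
      rw [map_mul, ← incl_inv', hinc, hFF, map_zero]
    calc f = f * FN := hfF.symm
      _ = FN * f := (hNc f)
      _ = FN * (inv' FN * f) := by rw [h3]
      _ = (FN * inv' FN) * f := by rw [mul_assoc]
      _ = 0 := by rw [h5, zero_mul]
  -- case I
  have caseI : OneSimple (toK O N FN) → ∃ (N : Subgroup G) (f : MonoidAlgebra O N)
      (Sf : SimpleQuot (toK O N f)), N.Normal ∧ H ≤ N ∧
      H ≠ N ∧ IsBlock f ∧ inv' f ≠ f ∧ HDat O N (incl O N f) Sf.n ∧ e * incl O N f ≠ 0 := by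
    intro hone
    obtain ⟨Sf⟩ := simpleQuot_of_oneSimple (toK O N FN) hFN0 (by rw [← map_mul, hNi])
      (fun a => by
        obtain ⟨a', rfl⟩ := toK_surjective O a
        rw [← map_mul, ← map_mul, hNc]) hone
    have hfl : IsBlock FN := Pool.Agent.Helper44.NO.block_of_simple FN hNi hNc Sf
    refine ⟨N, FN, Sf, hN, hHN, hHNne, hfl, nonreal FN hfl.1 hNi, ?_, by rw [hinc]; exact hne⟩
    rw [hinc, hF]
    have hsolN : Group.IsSolvable (N ⧸ H.subgroupOf N) := by
      let ψ : N ⧸ H.subgroupOf N →* G ⧸ H :=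
        QuotientGroup.map (H.subgroupOf N) H N.subtype (fun t ht => ht)
      have hψ : Function.Injective ψ := by
        rw [injective_iff_map_eq_one]
        intro y hy
        induction y using QuotientGroup.induction_on with
        | H y =>
          have hy' : ((y : G) : G ⧸ H) = 1 := hy
          rw [QuotientGroup.eq_one_iff] at hy'
          rw [QuotientGroup.eq_one_iff]
          exact hy'
      exact Group.isSolvable_of_isSolvable_injective hψ
    exact dat_I O h2 hH hN hHN b hb Sb hsolN (by rw [← hF]; exact hFF) (by rw [← hF]; exact hdat)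
      FN hfl (by rw [hinc, hF]) Sf
  by_cases hr2 : r = 2
  · -- `2`-groups
    apply caseI
    rw [← hFkN]
    exact Pool.Agent.Helper52.ST.one_simple_even hHNn _ kb1 kb2 SbN kF kU kcomm
      (by rw [hr2] at kpow; exact kpow)
  obtain ⟨L, hLn, hHL, hLN, hL⟩ := Pool.Agent.Helper44.ST.exists_rad hH hN hHN
    (incl (resK O) H bk) (by rw [← map_mul, hbkb]) (fun g hg => incl_supp H _ hg) hNk
    (fun g => by
      by_cases hg : g ∈ T
      · exact Or.inl (kT1 g hg)
      · exact Or.inr (kT2 g hg))
    (fun x hx => ((hX x).1 (hNX hx)).2)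
  rcases hmin L hLn hHL hLN with hLH | hLN'
  · -- the non-degenerate case
    apply caseI
    rw [← hFkN]
    refine Pool.Agent.Helper52.ST.one_simple_odd hHNn _ kb1 kb2 SbN kF kU kcomm hr hr2 kpow ?_
    intro x hx
    rw [Subgroup.mem_subgroupOf, ← hLH, hL]
    refine ⟨x.2, fun y hy u u' v v' hu hv => ?_⟩
    rw [hbkN] at hx
    have h3 := hx ⟨y, hy⟩ _ _ _ _ (uc_res hHN bk hu) (uc_res (x := ⟨y, hy⟩) hHN bk hv)
    have h4 := congrArg (incl (resK O) N) h3
    rw [map_mul, map_mul] at h4
    have s : ∀ (x : G) (w w' : MonoidAlgebra (resK O) G), x ∈ N →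
        UC H (incl (resK O) H bk) x w w' → incl (resK O) N (res N w) = w := by
      intro x w w' hx h
      apply Pool.Agent.Helper44.S3.incl_res N
      intro g hg
      apply h.supp
      intro hcon
      apply hg
      have h3 := N.mul_mem (hHN hcon) hx
      have h4 : g * (x : G)⁻¹ * x = g := by group
      rwa [h4] at h3
    rwa [s x u u' x.2 hu, s y v v' hy hv] at h4
  · -- the commutative case
    have hodd := relIndex_odd hH hr hr2 hpow
    have hek : toK O G e * incl (resK O) N (toK O N FN) ≠ 0 := by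
      intro h0
      rw [← toK_incl, hinc, ← map_mul] at h0
      exact hne (idem_eq_zero O heF h0)
    obtain ⟨fk, hfk, hfkF, hefk⟩ := exists_block_over (toK O N FN) (by rw [← map_mul, hNi])
      (fun a => by
        obtain ⟨a', rfl⟩ := toK_surjective O a
        rw [← map_mul, ← map_mul, hNc]) (toK O G e) hek
    have hcos := Pool.Agent.Helper52.ST.coset_scalar hHNn _ kb1 kb2 SbN kF kU hr hr2 kpow
      (fun x y u u' v v' hu hv => by
        rw [hbkN] at hu hv
        have hxL : (x : G) ∈ L := by
          rw [hLN']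
          exact x.2
        have h3 := ((hL x).1 hxL).2 y y.2 _ _ _ _ (uc_incl hHN bk hu) (uc_incl hHN bk hv)
        rw [← map_mul, ← map_mul] at h3
        exact incl_injective N h3) fk hfk (by rw [hFkN]; exact hfkF)
    obtain ⟨f, hfk', hff, hfc⟩ := lift_central O fk hfk.2.1 hfk.2.2.1
    subst hfk'
    have hf0 : f ≠ 0 := by
      rintro rfl
      exact hfk.1 (map_zero _)
    have hfFN : f * FN = f := by
      have h1 : f * FN * (f * FN) = f * FN := by
        calc f * FN * (f * FN) = f * (FN * f) * FN := by simp only [mul_assoc]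
          _ = f * (f * FN) * FN := by rw [hNc f]
          _ = (f * f) * (FN * FN) := by simp only [mul_assoc]
          _ = f * FN := by rw [hff, hNi]
      exact eq_of_toK O h1 hff (by rw [mul_assoc, ← hNc f, ← mul_assoc, hff])
        (by rw [← mul_assoc, hff]) (by rw [map_mul, hfkF])
    have hlift := coset_lift O f hff hcos
    obtain ⟨Sf, hSf⟩ := simple_c (toK O N f) (by rw [← map_mul, hff])
      (fun a => by
        obtain ⟨a', rfl⟩ := toK_surjective O a
        rw [← map_mul, ← map_mul, hfc]) hcos (toK O (H.subgroupOf N) bN)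
      (Pool.Agent.Helper52.NO.block_of_simpleQuot SbN kb1 kb2) (by rw [hFkN]; exact hfkF)
      hfk.1 SbN
    have hfl : IsBlock f := Pool.Agent.Helper44.NO.block_of_simple f hff hfc Sf
    refine ⟨N, f, Sf, hN, hHN, hHNne, hfl, nonreal f hf0 hfFN, ?_, ?_⟩
    · rw [hSf, hSbN]
      have hcH := comp_H f hff hfc hlift bN hblN (by rw [← hFN]; exact hfFN) hf0
      refine dat_c O h2 hH hN hHN hodd F (incl O N f) hFs (fun g hg => incl_supp N _ hg) ?_
        (fun n hn => hFT n (hNT hn)) hFF ?_ ?_ ?_ ?_ ?_ hdat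
      · intro n hn
        have h1 := congrArg (incl O N) (hfc (el O ⟨n, hn⟩))
        rw [map_mul, map_mul, incl_el] at h1
        exact h1
      · rw [← hinc, ← map_mul, hfFN]
      · intro h0
        apply hf0
        exact incl_injective N (by rw [h0, map_zero])
      · intro h hh
        have h3 := congrArg (fun y => y.coeff (⟨⟨h, hHN hh⟩, Subgroup.mem_subgroupOf.2 hh⟩ :
          H.subgroupOf N)) hcH
        simp only [MonoidAlgebra.coeff_smul, Finsupp.smul_apply, smul_eq_mul, res_coeff] at h3
        have h4 := incl_coeff N f ⟨h, hHN hh⟩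
        have h5 := incl_coeff N FN ⟨h, hHN hh⟩
        have h6 := incl_coeff (H.subgroupOf N) bN ⟨⟨h, hHN hh⟩, Subgroup.mem_subgroupOf.2 hh⟩
        change (incl O N f).coeff h = _ at h4
        rw [hinc] at h5
        change F.coeff h = _ at h5
        rw [← hFN] at h6
        rw [h4, h5]
        exact h3.trans h6.symm
      · intro n hn
        obtain ⟨a, ha⟩ := hlift ⟨n, hn⟩
        refine ⟨(trE hHN O).symm a, ?_⟩
        have h3 := congrArg (incl O N) ha
        rw [map_mul, map_mul, incl_el] at h3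
        rw [← incl_incl hHN, AlgEquiv.apply_symm_apply]
        exact h3
      · intro g
        by_cases hg : g ∈ T
        · right
          rw [hT1 g hg, hFF]
        · left
          exact hT2 g hg
    · intro h0
      apply hefk
      rw [← toK_incl, ← map_mul, h0, map_zero]

end Pool.Agent.Helper36.ST
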