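import Pool.Agent.Helper36.ST.Ind

/-!
# The total identity for the blocks above a block with good data
-/

set_option autoImplicit false
open scoped BigOperators MonoidAlgebra
open Classical

namespace Pool.Agent.Helper36.ST

open Pool.Agent.Helper36.NB Pool.Agent.Helper44.S3 Pool.Agent.Helper36.NC

/-- The reduction to the stabiliser of `{F, F°}`. -/
theorem fr_red (O : ValuationSubring ℂ) (h2 : (2 : O) ∈ IsLocalRing.maximalIdeal O)
    {G : Type} [Group G] [Fintype G] {H G1 : Subgroup G} (hHG1 : H ≤ G1)
    (b : MonoidAlgebra O H) (hb : IsBlock b) (Sb : SimpleQuot (toK O H b))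
    (hdat : HDat O H (incl O H b) Sb.n) (hFF : incl O H b * inv' (incl O H b) = 0)
    (hI : Impr G1 (incl O H b + inv' (incl O H b)))
    {e : MonoidAlgebra O G} (he : IsBlock e) (her : inv' e = e) (S : SimpleQuot (toK O G e))
    (hne : e * incl O H b ≠ 0)
    (hrec : ∀ b1 : MonoidAlgebra O (H.subgroupOf G1), IsBlock b1 → inv' b1 ≠ b1 →
      ∀ Sb1 : SimpleQuot (toK O (H.subgroupOf G1) b1),
      HDat O (H.subgroupOf G1) (incl O (H.subgroupOf G1) b1) Sb1.n →
      ∀ e1 : MonoidAlgebra O G1, IsBlock e1 → inv' e1 = e1 → ∀ S1 : SimpleQuot (toK O G1 e1),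
      e1 * incl O (H.subgroupOf G1) b1 ≠ 0 → Tot O e1 S1.n) : Tot O e S.n := by
  obtain ⟨he0, hee, hec, hprim⟩ := id he
  obtain ⟨hb0, hbb, hbc, hbp⟩ := id hb
  set F := incl O H b with hF
  have hFi : F * F = F := by rw [hF, ← map_mul, hbb]
  have hF0 : F ≠ 0 := by
    intro h
    apply hb0
    exact incl_injective H (by rw [← hF, h, map_zero])
  have hF'F : inv' F * F = 0 := by
    have h3 : inv' F = incl O H (inv' b) := incl_inv' H b
    rw [h3, hF, ← map_mul, hbc, map_mul, ← h3, ← hF, hFF]
  obtain ⟨h0, hh0⟩ : ∃ h0, h0 = F + inv' F := ⟨_, rfl⟩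
  rw [← hh0] at hI
  have hh0F : h0 * F = F := by rw [hh0, add_mul, hFi, hF'F, add_zero]
  have heh0 : e * h0 ≠ 0 := by
    intro h
    apply hne
    rw [← hh0F, ← mul_assoc, h, zero_mul]
  refine fr_total O h2 hI he her S heh0 ?_
  intro hbl hinv S1
  obtain ⟨b1, hb1⟩ : ∃ b1, b1 = trE hHG1 O b := ⟨_, rfl⟩
  have hbl1 : IsBlock b1 := by rw [hb1]; exact isBlock_trE hHG1 hb
  obtain ⟨F1, hF1⟩ : ∃ F1, F1 = incl O (H.subgroupOf G1) b1 := ⟨_, rfl⟩
  have hinc : incl O G1 F1 = F := by
    rw [hF1, hb1]
    exact incl_incl hHG1 b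
  have hinc' : incl O G1 (inv' F1) = inv' F := by rw [← incl_inv', hinc]
  obtain ⟨Sb1, hSb1⟩ : ∃ S' : SimpleQuot (toK O (H.subgroupOf G1) b1), S'.n = Sb.n := by
    rw [hb1, toK_trE]
    exact ⟨sqE hHG1 Sb, rfl⟩
  have hFF1 : F1 * inv' F1 = 0 := by
    apply incl_injective G1
    rw [map_mul, hinc, hinc', hFF, map_zero]
  have hF1i : F1 * F1 = F1 := by
    apply incl_injective G1
    rw [map_mul, hinc, hFi]
  have hF10 : F1 ≠ 0 := by
    intro h
    apply hF0
    rw [← hinc, h, map_zero]
  have hdat1 : HDat O (H.subgroupOf G1) F1 Sb1.n := by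
    rintro ⟨z, hz, hzz⟩
    obtain ⟨q, hq⟩ := hdat ⟨z, by rw [← hinc, incl_cj', hz, incl_inv'],
      Subgroup.mem_subgroupOf.1 hzz⟩
    rw [hSb1]
    exact ⟨q, dat_sub O hq G1 hHG1 F1 hinc⟩
  refine hrec b1 hbl1 ?_ Sb1 ?_ _ hbl hinv S1 ?_
  · intro h
    apply hF10
    rw [← hF1i]
    nth_rewrite 2 [← show inv' F1 = F1 by rw [hF1, incl_inv', h]]
    exact hFF1
  · rw [← hF1]
    exact hdat1
  · rw [← hF1]
    intro h
    apply hne
    have hsupp : ∀ g, g ∉ G1 → (e * h0).coeff g = 0 := by
      apply supp_stab hI.idem hI.supp hI.orth hec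
    have h3 := congrArg (incl O G1) h
    rw [map_mul, hinc, map_zero, Pool.Agent.Helper44.S3.incl_res G1 hsupp, mul_assoc, hh0F] at h3
    exact h3

theorem st_inner (O : ValuationSubring ℂ) (h2 : (2 : O) ∈ IsLocalRing.maximalIdeal O) (m : ℕ) :
    ∀ (G : Type) [Group G] [Fintype G] (H : Subgroup G) (hH : H.Normal), H.index ≤ m →
      Group.IsSolvable (G ⧸ H) → ∀ b : MonoidAlgebra O H, IsBlock b → inv' b ≠ b →
      ∀ Sb : SimpleQuot (toK O H b), HDat O H (incl O H b) Sb.n →
      ∀ e : MonoidAlgebra O G, IsBlock e → inv' e = e → ∀ S : SimpleQuot (toK O G e),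
      e * incl O H b ≠ 0 → Tot O e S.n := by
  induction m with
  | zero =>
    intro G _ _ H hH hm
    have h3 : H.index ≠ 0 := Subgroup.index_ne_zero_of_finite
    omega
  | succ m ih =>
    intro G _ _ H hH hm hsol b hb hbr Sb hdat e he her S hne
    obtain ⟨hb0, hbb, hbc, hbp⟩ := id hb
    obtain ⟨he0, hee, hec, hprim⟩ := id he
    let T : Subgroup G :=
      { carrier := {g | cj g (incl O H b) = incl O H b}
        one_mem' := cj_one _
        mul_mem' := by
          intro x y hx hy
          change cj (x * y) (incl O H b) = incl O H b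
          rw [← cj_cj, show cj y (incl O H b) = incl O H b from hy,
            show cj x (incl O H b) = incl O H b from hx]
        inv_mem' := by
          intro x hx
          change cj x⁻¹ (incl O H b) = incl O H b
          have h1 : cj x (incl O H b) = incl O H b := hx
          nth_rewrite 1 [← h1]
          rw [cj_cj, inv_mul_cancel, cj_one] }
    have hT : ∀ g, g ∈ T ↔ cj g (incl O H b) = incl O H b := fun g => Iff.rfl
    obtain ⟨hFF, hHT, G1, hI, hTG1, hidx, hswap⟩ := stab_two_ne hH b hb hbr hT he her hne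
    by_cases htop : G1 = ⊤
    · -- the stable case
      subst htop
      have hTi : T.index = 2 := by rw [← Subgroup.relIndex_top_right]; exact hidx
      have hT2 : ∀ g, g ∉ T → cj g (incl O H b) = inv' (incl O H b) := fun g hg =>
        hswap g (Subgroup.mem_top g) hg
      by_cases hB : e * incl O H b = incl O H b
      · have hsolT : Group.IsSolvable (T ⧸ H.subgroupOf T) := by
          let ψ : T ⧸ H.subgroupOf T →* G ⧸ H :=
            QuotientGroup.map (H.subgroupOf T) H T.subtype (fun t ht => ht)
          have hψ : Function.Injective ψ := by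
            rw [injective_iff_map_eq_one]
            intro y hy
            induction y using QuotientGroup.induction_on with
            | H y =>
              have hy' : ((y : G) : G ⧸ H) = 1 := hy
              rw [QuotientGroup.eq_one_iff] at hy'
              rw [QuotientGroup.eq_one_iff]
              exact hy'
          exact Group.isSolvable_of_isSolvable_injective hψ
        intro x D E hx hDE hDEne
        exact nc_sum O h2 hH b hb hbr Sb hT hsolT hdat he her S hB hx hDE hDEne
      · obtain ⟨N, f, Sf, hN, hHN, hHNne, hf, hfr, hdatN, hneN⟩ :=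
          step O h2 hH hsol b hb Sb hdat e he hne hTi hHT (fun g hg => hg) hT2 hFF hB
        have hidxN : N.index ≤ m := by
          have h3 := Subgroup.relIndex_mul_index hHN
          have h4 : H.relIndex N ≠ 1 := by
            intro h
            rw [Subgroup.relIndex_eq_one] at h
            exact hHNne (le_antisymm hHN h)
          have h5 : H.relIndex N ≠ 0 := by
            intro h
            rw [h, zero_mul] at h3
            exact Subgroup.index_ne_zero_of_finite h3.symm
          have h6 : 2 ≤ H.relIndex N := by omega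
          have h7 : 2 * N.index ≤ H.index := by
            rw [← h3]
            exact Nat.mul_le_mul_right _ h6
          have h8 : N.index ≠ 0 := Subgroup.index_ne_zero_of_finite
          omega
        have hsolN : Group.IsSolvable (G ⧸ N) := by
          let ψ : G ⧸ H →* G ⧸ N := QuotientGroup.map H N (MonoidHom.id G) hHN
          have hψ : Function.Surjective ψ := by
            intro y
            induction y using QuotientGroup.induction_on with
            | H y => exact ⟨(y : G ⧸ H), rfl⟩
          exact Group.isSolvable_of_surjective hψ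
        exact ih G N hN hidxN hsolN f hf hfr Sf hdatN e he her S hneN
    · have hHG1 : H ≤ G1 := hHT.trans hTG1
      refine fr_red O h2 hHG1 b hb Sb hdat hFF hI he her S hne ?_
      intro b1 hb1 hbr1 Sb1 hdat1 e1 he1 her1 S1 hne1
      have hidx1 : (H.subgroupOf G1).index ≤ m := by
        have h3 := Subgroup.relIndex_mul_index hHG1
        have h4 : G1.index ≠ 1 := by
          intro h
          exact htop (Subgroup.index_eq_one.1 h)
        have h5 : G1.index ≠ 0 := Subgroup.index_ne_zero_of_finite
        have h6 : H.relIndex G1 * 2 ≤ H.index := by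
          rw [← h3]
          exact Nat.mul_le_mul_left _ (by omega)
        have h8 : H.relIndex G1 ≠ 0 := by
          intro h
          rw [h, zero_mul] at h3
          exact Subgroup.index_ne_zero_of_finite h3.symm
        change H.relIndex G1 ≤ m
        omega
      have hH1 := hH.subgroupOf G1
      have hsol1 : Group.IsSolvable (G1 ⧸ H.subgroupOf G1) := by
        let ψ : G1 ⧸ H.subgroupOf G1 →* G ⧸ H :=
          QuotientGroup.map (H.subgroupOf G1) H G1.subtype (fun t ht => ht)
        have hψ : Function.Injective ψ := by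
          rw [injective_iff_map_eq_one]
          intro y hy
          induction y using QuotientGroup.induction_on with
          | H y =>
            have hy' : ((y : G) : G ⧸ H) = 1 := hy
            rw [QuotientGroup.eq_one_iff] at hy'
            rw [QuotientGroup.eq_one_iff]
            exact hy'
        exact Group.isSolvable_of_isSolvable_injective hψ
      exact ih G1 (H.subgroupOf G1) hH1 hidx1 hsol1 b1 hb1 hbr1 Sb1 hdat1 e1 he1 her1 S1 hne1

theorem st_outer (O : ValuationSubring ℂ) (h2 : (2 : O) ∈ IsLocalRing.maximalIdeal O)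
    {G : Type} [Group G] [Fintype G] {H : Subgroup G} (hH : H.Normal) (b : MonoidAlgebra O H)
    (hb : IsBlock b) (hbr : inv' b ≠ b) (Sb : SimpleQuot (toK O H b))
    (hdat : HDat O H (incl O H b) Sb.n) {T : Subgroup G}
    (hT : ∀ g, g ∈ T ↔ cj g (incl O H b) = incl O H b)
    (hsol : Group.IsSolvable (T ⧸ H.subgroupOf T)) {e : MonoidAlgebra O G} (he : IsBlock e)
    (her : inv' e = e) (S : SimpleQuot (toK O G e)) (hne : e * incl O H b ≠ 0) :
    Tot O e S.n := by
  obtain ⟨hFF, hHT, G1, hI, hTG1, hidx, hswap⟩ := stab_two_ne hH b hb hbr hT he her hne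
  have hHG1 : H ≤ G1 := hHT.trans hTG1
  refine fr_red O h2 hHG1 b hb Sb hdat hFF hI he her S hne ?_
  intro b1 hb1 hbr1 Sb1 hdat1 e1 he1 her1 S1 hne1
  have hH1 := hH.subgroupOf G1
  have hHT1 : H.subgroupOf G1 ≤ T.subgroupOf G1 := fun t ht =>
    Subgroup.mem_subgroupOf.2 (hHT (Subgroup.mem_subgroupOf.1 ht))
  have hsol1 : Group.IsSolvable (G1 ⧸ H.subgroupOf G1) :=
    solv_sub hH1 hidx hHT1 (solv_tr hH hTG1 hsol)
  exact st_inner O h2 _ G1 (H.subgroupOf G1) hH1 le_rfl hsol1 b1 hb1 hbr1 Sb1 hdat1 e1 he1 her1
    S1 hne1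

end Pool.Agent.Helper36.ST
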