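import Pool.Agent.Helper36.ST.Defs
import Pool.Agent.Helper36.NB.C2

/-!
# A simple quotient gives one simple module
-/

set_option autoImplicit false
open scoped BigOperators MonoidAlgebra
open Classical

namespace Pool.Agent.Helper36.ST

open Pool.Agent.Helper36.NB Pool.Agent.Helper44.S3 Pool.Agent.Helper36.NC

section one

variable {k : Type} [Field k] {H : Type} [Group H] {b : MonoidAlgebra k H} (S : SimpleQuot b)
  {V : Type} [AddCommGroup V] [Module k V] (ρ : Representation k H V)
  (hρ : ρ.IsIrreducible) (hb : ρ.asAlgebraHom b = 1)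

include hρ in
/-- Stable subspaces of an irreducible representation. -/
theorem stable_top (U : Submodule k V) (hU : ∀ g : H, ∀ v ∈ U, ρ g v ∈ U) : U = ⊥ ∨ U = ⊤ := by
  let W : Subrepresentation ρ :=
    { toSubmodule := U
      apply_mem_toSubmodule := fun g v hv => hU g v hv }
  have := hρ
  have h := (inferInstance : IsSimpleOrder (Subrepresentation ρ)).eq_bot_or_eq_top W
  rcases h with h | h
  · left
    have := congrArg Subrepresentation.toSubmodule h
    exact this
  · right
    have := congrArg Subrepresentation.toSubmodule h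
    exact this

theorem alg_mul (a c : MonoidAlgebra k H) (v : V) :
    ρ.asAlgebraHom a (ρ.asAlgebraHom c v) = ρ.asAlgebraHom (a * c) v := by
  rw [map_mul]
  rfl

include hρ hb in
/-- The kernel of the simple quotient acts as zero. -/
theorem kill_rep (y : MonoidAlgebra k H) (hy : S.ρ y = 0) : ρ.asAlgebraHom y = 0 := by
  ext v
  by_contra hne
  change ρ.asAlgebraHom y v ≠ 0 at hne
  -- the subspace `I v`
  let U : Submodule k V :=
    { carrier := {w | ∃ c : MonoidAlgebra k H, S.ρ c = 0 ∧ ρ.asAlgebraHom c v = w}
      zero_mem' := ⟨0, map_zero _, by rw [map_zero]; rfl⟩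
      add_mem' := by
        rintro _ _ ⟨c, hc, rfl⟩ ⟨d, hd, rfl⟩
        exact ⟨c + d, by rw [map_add, hc, hd, add_zero], by rw [map_add]; rfl⟩
      smul_mem' := by
        rintro r _ ⟨c, hc, rfl⟩
        exact ⟨r • c, by rw [map_smul, hc, smul_zero], by rw [map_smul]; rfl⟩ }
  have hU : ∀ g : H, ∀ w ∈ U, ρ g w ∈ U := by
    rintro g _ ⟨c, hc, rfl⟩
    refine ⟨el k g * c, by rw [map_mul, hc, mul_zero], ?_⟩
    rw [← alg_mul, asAlg_el]
  rcases stable_top ρ hρ U hU with h | h
  · apply hne
    have h1 : ρ.asAlgebraHom y v ∈ U := ⟨y, hy, rfl⟩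
    rw [h] at h1
    exact (Submodule.mem_bot k).1 h1
  · have h1 : v ∈ U := by rw [h]; exact Submodule.mem_top
    obtain ⟨c, hc, hcv⟩ := h1
    obtain ⟨r, hr⟩ := S.nil c hc
    have h3 : ρ.asAlgebraHom (c * b) v = v := by
      rw [← alg_mul, hb]
      exact hcv
    have h4 : ∀ r : ℕ, ρ.asAlgebraHom ((c * b) ^ r) v = v := by
      intro r
      induction r with
      | zero => rw [pow_zero, map_one]; rfl
      | succ r ih => rw [pow_succ, ← alg_mul, h3, ih]
    have h5 := h4 r
    rw [hr, map_zero] at h5
    have h6 : v = 0 := h5.symm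
    apply hne
    rw [h6, map_zero]

include hρ hb in
/-- An irreducible representation in the block is equivalent to the simple quotient. -/
theorem exists_map : ∃ Φ : (Fin S.n → k) →ₗ[k] V,
    (∀ g u, Φ (Matrix.mulVec (S.ρ (el k g)) u) = ρ g (Φ u)) ∧ Φ ≠ 0 := by
  obtain ⟨s, hs⟩ := LinearMap.exists_rightInverse_of_surjective S.ρ.toLinearMap
    (LinearMap.range_eq_top.2 S.surj)
  have hs' : ∀ x, S.ρ (s x) = x := fun x => LinearMap.congr_fun hs x
  have key : ∀ y y' : MonoidAlgebra k H, S.ρ y = S.ρ y' →
      ρ.asAlgebraHom y = ρ.asAlgebraHom y' := by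
    intro y y' h
    have h1 := kill_rep S ρ hρ hb (y - y') (by rw [map_sub, h, sub_self])
    rwa [map_sub, sub_eq_zero] at h1
  have hpos := S.pos
  set i0 : Fin S.n := ⟨0, hpos⟩ with hi0
  set E : Matrix (Fin S.n) (Fin S.n) k := Matrix.single i0 i0 1 with hE
  -- `ρ(a) ≠ 0`
  have hne : ρ.asAlgebraHom (s E) ≠ 0 := by
    intro h0
    have hnt : Nontrivial V := by
      by_contra hcon
      have hsub : Subsingleton V := not_nontrivial_iff_subsingleton.1 hcon
      have h1 : (⊥ : Subrepresentation ρ) = ⊤ := by
        apply Subrepresentation.toSubmodule_injective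
        change (⊥ : Submodule k V) = ⊤
        exact Subsingleton.elim _ _
      have := hρ
      exact bot_ne_top h1
    obtain ⟨v, hv⟩ := exists_ne (0 : V)
    apply hv
    have h1 : ρ.asAlgebraHom 1 = ρ.asAlgebraHom (∑ i : Fin S.n,
        s (Matrix.single i i0 1) * s E * s (Matrix.single i0 i 1)) := by
      apply key
      rw [map_one, map_sum]
      simp only [map_mul, hs', hE]
      ext p q
      rw [Matrix.sum_apply]
      simp only [Matrix.single_mul_single_same, mul_one]
      rw [Matrix.one_apply]
      simp only [Matrix.single_apply]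
      by_cases hpq : p = q
      · subst hpq
        simp
      · rw [if_neg hpq]
        symm
        apply Finset.sum_eq_zero
        intro i _
        rw [if_neg]
        rintro ⟨rfl, rfl⟩
        exact hpq rfl
    have h3 := LinearMap.congr_fun h1 v
    rw [map_one] at h3
    have h4 : (1 : Module.End k V) v = v := rfl
    rw [h4] at h3
    rw [h3, map_sum]
    rw [LinearMap.sum_apply]
    apply Finset.sum_eq_zero
    intro i _
    rw [map_mul, map_mul, h0, mul_zero, zero_mul]
    rfl
  obtain ⟨v, hv⟩ : ∃ v, ρ.asAlgebraHom (s E) v ≠ 0 := by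
    by_contra hcon
    push Not at hcon
    exact hne (LinearMap.ext hcon)
  set v0 := ρ.asAlgebraHom (s E) v with hv0
  let col : (Fin S.n → k) →ₗ[k] Matrix (Fin S.n) (Fin S.n) k :=
    { toFun := fun u => Matrix.of fun p q => if q = i0 then u p else 0
      map_add' := by
        intro u w
        ext p q
        by_cases h : q = i0
        · simp [h]
        · simp [h]
      map_smul' := by
        intro r u
        ext p q
        by_cases h : q = i0
        · simp [h]
        · simp [h] }
  have hcol : ∀ u p q, col u p q = if q = i0 then u p else 0 := fun u p q => rfl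
  let Φ : (Fin S.n → k) →ₗ[k] V :=
    { toFun := fun u => ρ.asAlgebraHom (s (col u)) v0
      map_add' := fun u w => by rw [map_add, map_add, map_add]; rfl
      map_smul' := fun r u => by rw [map_smul, map_smul, map_smul]; rfl }
  have hΦ : ∀ u, Φ u = ρ.asAlgebraHom (s (col u)) v0 := fun u => rfl
  refine ⟨Φ, ?_, ?_⟩
  · intro g u
    have h9 : ρ.asAlgebraHom (s (col (Matrix.mulVec (S.ρ (el k g)) u))) =
        ρ.asAlgebraHom (el k g * s (col u)) := by
      apply key
      rw [map_mul, hs', hs']
      ext p q
      rw [hcol, Matrix.mul_apply]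
      by_cases h : q = i0
      · rw [if_pos h, Matrix.mulVec, dotProduct]
        refine Finset.sum_congr rfl fun j _ => ?_
        rw [hcol, if_pos h]
      · rw [if_neg h]
        symm
        apply Finset.sum_eq_zero
        intro j _
        rw [hcol, if_neg h, mul_zero]
    rw [hΦ, h9, ← alg_mul, asAlg_el, hΦ]
  · intro h0
    apply hv
    have h1 : Φ (Pi.single i0 1) = v0 := by
      rw [hΦ]
      have h3 : col (Pi.single i0 1) = E := by
        ext p q
        rw [hcol, hE, Matrix.single_apply]
        by_cases h : q = i0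
        · rw [if_pos h, Pi.single_apply]
          by_cases h' : p = i0
          · rw [if_pos h', if_pos ⟨h'.symm, h.symm⟩]
          · rw [if_neg h', if_neg (fun h'' => h' h''.1.symm)]
        · rw [if_neg h, if_neg (fun h'' => h h''.2.symm)]
      have h9 : ρ.asAlgebraHom (s E * s E) = ρ.asAlgebraHom (s E) := by
        apply key
        rw [map_mul, hs', hE, Matrix.single_mul_single_same, mul_one]
      rw [h3, hv0, alg_mul, h9]
    rw [← h1, h0]
    rfl

end one

/-- A simple quotient gives one simple module. -/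
theorem oneSimple_of {k : Type} [Field k] {H : Type} [Group H] {b : MonoidAlgebra k H}
    (S : SimpleQuot b) : OneSimple b := by
  intro m n ρ σ hρ hσ hbρ hbσ
  have hirr := C2aux.rep_irred S.pos S.ρ S.surj
  have key : ∀ {m : ℕ} (ρ : Representation k H (Fin m → k)), ρ.IsIrreducible →
      ρ.asAlgebraHom b = 1 → Nonempty ((C2aux.rep S.ρ).Equiv ρ) := by
    intro m ρ hρ hbρ
    obtain ⟨Φ, hΦ, hne⟩ := exists_map S ρ hρ hbρ
    have hΦ' : ∀ (g : H) u, Φ (C2aux.rep S.ρ g u) = ρ g (Φ u) := by
      intro g u
      rw [C2aux.rep_apply, Matrix.toLin'_apply]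
      exact hΦ g u
    let F : Representation.IntertwiningMap (C2aux.rep S.ρ) ρ :=
      LinearMap.intertwiningMap_of_isIntertwiningMap _ _ Φ hΦ'
    have := hρ
    have := hirr
    rcases Representation.IsIrreducible.bijective_or_eq_zero F with hF | hF
    · exact ⟨F.ofBijective hF⟩
    · exfalso
      apply hne
      ext u
      have h6 : F (Pi.single u 1) = 0 := by rw [hF]; rfl
      have h7 : Φ (Pi.single u 1) = 0 := h6
      simpa using congrFun h7 _
  obtain ⟨e1⟩ := key ρ hρ hbρ
  obtain ⟨e2⟩ := key σ hσ hbσ
  exact ⟨e1.symm.trans e2⟩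

end Pool.Agent.Helper36.ST
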